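import Pool.Agent.H796R3.Defs

/-!
# Finite algebras with a Maltsev operation and guarded symmetric operations

The congruence lattice of such an algebra is distributive (in the form `D2`).
-/

set_option autoImplicit false

namespace Pool.Agent.H796R3

/-- A finite algebra; `S n` is the set of `n`-ary operation symbols. -/
structure Alg (S : ℕ → Type) where
  /-- carrier -/
  car : Type
  /-- finiteness -/
  fin : Finite car
  /-- operations -/
  op : ∀ {n : ℕ}, S n → (Fin n → car) → car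

attribute [instance] Alg.fin

variable {S : ℕ → Type}

/-- Congruences. -/
structure Cgr (R : Alg S) where
  /-- the relation -/
  r : R.car → R.car → Prop
  eqv : Equivalence r
  comp : ∀ {n : ℕ} (s : S n) (x y : Fin n → R.car), (∀ i, r (x i) (y i)) → r (R.op s x) (R.op s y)

/-- Subalgebras. -/
structure SubA (R : Alg S) where
  /-- membership -/
  mem : R.car → Prop
  closed : ∀ {n : ℕ} (s : S n) (x : Fin n → R.car), (∀ i, mem (x i)) → mem (R.op s x)

/-- Isomorphisms. -/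
structure AIso (R T : Alg S) where
  /-- the bijection -/
  e : R.car ≃ T.car
  map : ∀ {n : ℕ} (s : S n) (x : Fin n → R.car), e (R.op s x) = T.op s (fun i => e (x i))

/-- the subalgebra as an algebra -/
def SubA.alg {R : Alg S} (B : SubA R) : Alg S where
  car := {x : R.car // B.mem x}
  fin := inferInstance
  op s x := ⟨R.op s (fun i => (x i).1), B.closed s _ (fun i => (x i).2)⟩

/-- the setoid of a congruence -/
def Cgr.std {R : Alg S} (α : Cgr R) : Setoid R.car := ⟨α.r, α.eqv⟩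

/-- the quotient algebra -/
noncomputable def Cgr.alg {R : Alg S} (α : Cgr R) : Alg S where
  car := Quotient α.std
  fin := inferInstance
  op s x := Quotient.mk α.std (R.op s (fun i => (x i).out))

/-- the quotient map -/
def Cgr.cls {R : Alg S} (α : Cgr R) (x : R.car) : α.alg.car := Quotient.mk α.std x

theorem Cgr.cls_eq {R : Alg S} (α : Cgr R) (x y : R.car) : α.cls x = α.cls y ↔ α.r x y :=
  Quotient.eq (r := α.std)

theorem Cgr.cls_surj {R : Alg S} (α : Cgr R) (y : α.alg.car) : ∃ x, α.cls x = y :=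
  Quotient.exists_rep y

theorem Cgr.cls_op {R : Alg S} (α : Cgr R) {n : ℕ} (s : S n) (x : Fin n → R.car) :
    α.cls (R.op s x) = α.alg.op s (fun i => α.cls (x i)) := by
  show α.cls (R.op s x) = α.cls (R.op s (fun i => (α.cls (x i)).out))
  rw [α.cls_eq]
  refine α.comp s _ _ (fun i => ?_)
  have : α.cls (x i) = α.cls ((α.cls (x i)).out) := (Quotient.out_eq (α.cls (x i))).symm
  exact (α.cls_eq _ _).1 this

/-- The identities we need. -/
structure Good (m : S 3) (sy : ∀ n, S (n + 1)) (R : Alg S) : Prop where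
  m1 : ∀ x y : R.car, R.op m ![x, y, y] = x
  m2 : ∀ x y : R.car, R.op m ![y, y, x] = x
  s1 : ∀ (n : ℕ) (σ : Equiv.Perm (Fin n)) (x : R.car) (y : Fin n → R.car), 1 ≤ n →
    R.op (sy n) (Fin.cons x (y ∘ σ)) = R.op (sy n) (Fin.cons x y)
  s2 : ∀ (n : ℕ) (x y : R.car), 1 ≤ n → R.op (sy n) (Fin.cons x (fun _ => y)) = y

/-! ## matrices -/

/-- `2 × 2` matrices `[p q; r t]` (rows vary along `α`, columns along `β`). -/
inductive Mat (R : Alg S) (α β : R.car → R.car → Prop) :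
    R.car → R.car → R.car → R.car → Prop
  | row {a b : R.car} : α a b → Mat R α β a a b b
  | col {a b : R.car} : β a b → Mat R α β a b a b
  | op {n : ℕ} (s : S n) (p q r t : Fin n → R.car) :
      (∀ i, Mat R α β (p i) (q i) (r i) (t i)) →
      Mat R α β (R.op s p) (R.op s q) (R.op s r) (R.op s t)

section
variable {R : Alg S}

theorem Mat.op3 {α β : R.car → R.car → Prop} (m : S 3)
    {p1 q1 r1 t1 p2 q2 r2 t2 p3 q3 r3 t3 : R.car}
    (h1 : Mat R α β p1 q1 r1 t1) (h2 : Mat R α β p2 q2 r2 t2) (h3 : Mat R α β p3 q3 r3 t3) :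
    Mat R α β (R.op m ![p1, p2, p3]) (R.op m ![q1, q2, q3]) (R.op m ![r1, r2, r3])
      (R.op m ![t1, t2, t3]) := by
  refine Mat.op m _ _ _ _ (fun i => ?_)
  fin_cases i
  · exact h1
  · exact h2
  · exact h3

theorem Mat.mono {α β α' β' : R.car → R.car → Prop} (hα : ∀ x y, α x y → α' x y)
    (hβ : ∀ x y, β x y → β' x y) {p q r t : R.car} (h : Mat R α β p q r t) :
    Mat R α' β' p q r t := by
  induction h with
  | row h => exact Mat.row (hα _ _ h)
  | col h => exact Mat.col (hβ _ _ h)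
  | op s p q r t _ ih => exact Mat.op s p q r t ih

theorem Mat.transpose {α β : R.car → R.car → Prop} {p q r t : R.car} (h : Mat R α β p q r t) :
    Mat R β α p r q t := by
  induction h with
  | row h => exact Mat.col h
  | col h => exact Mat.row h
  | op s p q r t _ ih => exact Mat.op s p r q t ih

theorem Mat.swap {α β : R.car → R.car → Prop} (hα : ∀ x y, α x y → α y x) {p q r t : R.car}
    (h : Mat R α β p q r t) : Mat R α β r t p q := by
  induction h with
  | row h => exact Mat.row (hα _ _ h)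
  | col h => exact Mat.col h
  | op s p q r t _ ih => exact Mat.op s r t p q ih

theorem Mat.rel (α β : Cgr R) {p q r t : R.car} (h : Mat R α.r β.r p q r t) :
    β.r p q ∧ β.r r t ∧ α.r p r ∧ α.r q t := by
  induction h with
  | row h => exact ⟨β.eqv.refl _, β.eqv.refl _, h, h⟩
  | col h => exact ⟨h, h, α.eqv.refl _, α.eqv.refl _⟩
  | op s p q r t _ ih =>
    exact ⟨β.comp s _ _ (fun i => (ih i).1), β.comp s _ _ (fun i => (ih i).2.1),
      α.comp s _ _ (fun i => (ih i).2.2.1), α.comp s _ _ (fun i => (ih i).2.2.2)⟩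

/-- `α` centralizes `β` modulo `θ`. -/
def Cent (α β θ : Cgr R) : Prop :=
  ∀ p q r t : R.car, Mat R α.r β.r p q r t → θ.r p q → θ.r r t

variable {m : S 3} {sy : ∀ n, S (n + 1)}

theorem Cgr.comp3 (θ : Cgr R) (m : S 3) {x x' y y' z z' : R.car} (h1 : θ.r x x') (h2 : θ.r y y')
    (h3 : θ.r z z') : θ.r (R.op m ![x, y, z]) (R.op m ![x', y', z']) := by
  refine θ.comp m _ _ (fun i => ?_)
  fin_cases i
  · exact h1
  · exact h2
  · exact h3

theorem cent_of_inf (hg : Good m sy R) (α β θ : Cgr R)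
    (h : ∀ x y, α.r x y → β.r x y → θ.r x y) : Cent α β θ := by
  intro p q r t hM hpq
  obtain ⟨h1, h2, h3, h4⟩ := Mat.rel α β hM
  have hN := Mat.op3 m hM (Mat.col (α := α.r) h1) (Mat.row (β := β.r) (α.eqv.refl p))
  rw [hg.m1, hg.m2, hg.m1] at hN
  obtain ⟨_, g2, g3, g4⟩ := Mat.rel α β hN
  have h5 : θ.r r (R.op m ![t, q, p]) := h _ _ (α.eqv.trans (α.eqv.symm g3) g4) g2
  have h6 : θ.r (R.op m ![t, q, p]) (R.op m ![t, p, p]) :=
    θ.comp3 m (θ.eqv.refl _) (θ.eqv.symm hpq) (θ.eqv.refl _)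
  rw [hg.m1] at h6
  exact θ.eqv.trans h5 h6

theorem Cent.symm (hg : Good m sy R) {α β θ : Cgr R} (h : Cent α β θ) : Cent β α θ := by
  intro p q r t hM hpq
  -- transpose: `[p r; q t] ∈ M(α, β)`
  have hT : Mat R α.r β.r p r q t := hM.transpose
  obtain ⟨h1, h2, h3, h4⟩ := Mat.rel α β hT
  -- h1 : β p r, h2 : β q t, h3 : α p q, h4 : α r t
  have hX : Mat R α.r β.r q t p r := hT.swap (fun _ _ => α.eqv.symm)
  have hN := Mat.op3 m hX (Mat.col (α := α.r) h2) (Mat.row (β := β.r) (α.eqv.refl t))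
  rw [hg.m2, hg.m1] at hN
  -- top row: op m ![q,q,t] = t, op m ![t,t,t] = t ; bottom: op m ![p,q,t], op m ![r,t,t] = r
  have h5 := h _ _ _ _ hN (θ.eqv.refl _)
  rw [hg.m1] at h5
  have h6 : θ.r (R.op m ![p, q, t]) (R.op m ![q, q, t]) :=
    θ.comp3 m hpq (θ.eqv.refl _) (θ.eqv.refl _)
  rw [hg.m2] at h6
  exact θ.eqv.trans (θ.eqv.symm h5) h6

theorem cent_triv (α β θ : Cgr R) (h : ∀ x y, α.r x y → θ.r x y) : Cent α β θ := by
  intro p q r t hM hpq
  obtain ⟨_, _, h3, h4⟩ := Mat.rel α β hM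
  exact θ.eqv.trans (θ.eqv.symm (h _ _ h3)) (θ.eqv.trans hpq (h _ _ h4))

theorem Cent.mono {α β θ α' β' : Cgr R} (hα : ∀ x y, α'.r x y → α.r x y)
    (hβ : ∀ x y, β'.r x y → β.r x y) (h : Cent α β θ) : Cent α' β' θ :=
  fun p q r t hM hpq => h p q r t (hM.mono hα hβ) hpq

theorem perm_comp (hg : Good m sy R) (α β : Cgr R) {x z y : R.car} (h1 : α.r x z)
    (h2 : β.r z y) : ∃ w, β.r x w ∧ α.r w y := by
  refine ⟨R.op m ![x, z, y], ?_, ?_⟩
  · have := β.comp3 m (β.eqv.refl x) (β.eqv.refl z) h2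
    rwa [hg.m1] at this
  · have := α.comp3 m h1 (α.eqv.refl z) (α.eqv.refl y)
    rwa [hg.m2] at this

/-- The join (composition) of two congruences. -/
def Cgr.join (hg : Good m sy R) (α β : Cgr R) : Cgr R where
  r x y := ∃ z, α.r x z ∧ β.r z y
  eqv := by
    refine ⟨fun x => ⟨x, α.eqv.refl x, β.eqv.refl x⟩, ?_, ?_⟩
    · rintro x y ⟨z, h1, h2⟩
      exact perm_comp hg β α (β.eqv.symm h2) (α.eqv.symm h1)
    · rintro x y v ⟨z, h1, h2⟩ ⟨w, h3, h4⟩
      obtain ⟨z', h5, h6⟩ := perm_comp hg β α h2 h3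
      exact ⟨z', α.eqv.trans h1 h5, β.eqv.trans h6 h4⟩
  comp := by
    intro n s x y h
    choose z h1 h2 using h
    exact ⟨R.op s z, α.comp s _ _ h1, β.comp s _ _ h2⟩

/-- The meet of two congruences. -/
def Cgr.inf (α β : Cgr R) : Cgr R where
  r x y := α.r x y ∧ β.r x y
  eqv := ⟨fun x => ⟨α.eqv.refl x, β.eqv.refl x⟩, fun h => ⟨α.eqv.symm h.1, β.eqv.symm h.2⟩,
    fun h g => ⟨α.eqv.trans h.1 g.1, β.eqv.trans h.2 g.2⟩⟩
  comp s x y h := ⟨α.comp s _ _ (fun i => (h i).1), β.comp s _ _ (fun i => (h i).2)⟩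

theorem Mat.split (hg : Good m sy R) (α₁ α₂ β : Cgr R) {p q r t : R.car}
    (h : Mat R (Cgr.join hg α₁ α₂).r β.r p q r t) :
    ∃ p' q', Mat R α₁.r β.r p q p' q' ∧ Mat R α₂.r β.r p' q' r t := by
  induction h with
  | row h =>
    obtain ⟨c, h1, h2⟩ := h
    exact ⟨c, c, Mat.row h1, Mat.row h2⟩
  | @col a b h => exact ⟨a, b, Mat.col h, Mat.col h⟩
  | op s p q r t _ ih =>
    choose p' q' h1 h2 using ih
    exact ⟨R.op s p', R.op s q', Mat.op s _ _ _ _ h1, Mat.op s _ _ _ _ h2⟩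

theorem Cent.join (hg : Good m sy R) {α₁ α₂ β θ : Cgr R} (h1 : Cent α₁ β θ) (h2 : Cent α₂ β θ) :
    Cent (Cgr.join hg α₁ α₂) β θ := by
  intro p q r t hM hpq
  obtain ⟨p', q', g1, g2⟩ := Mat.split hg α₁ α₂ β hM
  exact h2 _ _ _ _ g2 (h1 _ _ _ _ g1 hpq)

/-- On a block of an abelian congruence all operations commute with `m` (modulo `κ`). -/
theorem cent_comm (hg : Good m sy R) {δ κ : Cgr R} (h : Cent δ δ κ) {n : ℕ} (f : S n)
    (x y z : Fin n → R.car) (hxy : ∀ i, δ.r (x i) (y i)) (hyz : ∀ i, δ.r (y i) (z i)) :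
    κ.r (R.op f (fun i => R.op m ![x i, y i, z i])) (R.op m ![R.op f x, R.op f y, R.op f z]) := by
  set w := R.op m ![R.op f x, R.op f y, R.op f z] with hw
  have Mx : ∀ i, Mat R δ.r δ.r (x i) (y i) (x i) (y i) := fun i => Mat.col (hxy i)
  have My : ∀ i, Mat R δ.r δ.r (y i) (y i) (y i) (y i) := fun i => Mat.col (δ.eqv.refl _)
  have Mz : ∀ i, Mat R δ.r δ.r (y i) (y i) (z i) (z i) := fun i => Mat.row (hyz i)
  have M1 := Mat.op f _ _ _ _ (fun i => Mat.op3 m (Mx i) (My i) (Mz i))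
  have M2 := Mat.op3 m (Mat.op f _ _ _ _ Mx) (Mat.op f _ _ _ _ My) (Mat.op f _ _ _ _ Mz)
  have M3 : Mat R δ.r δ.r w w w w := Mat.col (δ.eqv.refl _)
  have M4 := Mat.op3 m M1 M2 M3
  have key := h _ _ _ _ M4 ?_
  · simp only [hg.m1, hg.m2] at key
    rw [← hw] at key
    rw [hg.m1] at key
    exact key
  · simp only [hg.m1, hg.m2]
    exact κ.eqv.refl _

end

end Pool.Agent.H796R3
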