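import Mathlib

/-!
# Finite relational structures, polymorphisms, pp-constructions
-/

namespace Pool.Agent.H796R3

/-- A relational structure with finite (possibly empty) domain and finitely many relations. -/
structure FStr where
  /-- the domain -/
  dom : Type
  /-- the domain is finite -/
  finDom : Finite dom
  /-- the relation symbols -/
  sym : Type
  /-- there are finitely many relation symbols -/
  finSym : Finite sym
  /-- the arities -/
  ar : sym → ℕ
  /-- the relations -/
  rel : ∀ s, (Fin (ar s) → dom) → Prop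

attribute [instance] FStr.finDom FStr.finSym

/-- `f` preserves all relations of `A`. -/
def IsPol (A : FStr) (I : Type) (f : (I → A.dom) → A.dom) : Prop :=
  ∀ (s : A.sym) (x : I → Fin (A.ar s) → A.dom), (∀ i, A.rel s (x i)) →
    A.rel s (fun k => f (fun i => x i k))

/-- The `n`-ary polymorphisms of `A`, i.e. the homomorphisms `A ^ n → A`. -/
def Pol (A : FStr) (n : ℕ) : Type := {f : (Fin n → A.dom) → A.dom // IsPol A (Fin n) f}

/-- pp-formulas in `n` free variables over a relational signature. -/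
inductive PP (S : Type) (ar : S → ℕ) : ℕ → Type
  | tru {n : ℕ} : PP S ar n
  | eq {n : ℕ} (i j : Fin n) : PP S ar n
  | rel {n : ℕ} (s : S) (v : Fin (ar s) → Fin n) : PP S ar n
  | and {n : ℕ} (p q : PP S ar n) : PP S ar n
  | ex {n : ℕ} (p : PP S ar (n + 1)) : PP S ar n

/-- Satisfaction of a pp-formula. -/
def PP.Holds (A : FStr) : ∀ {n : ℕ}, PP A.sym A.ar n → (Fin n → A.dom) → Prop
  | _, .tru, _ => True
  | _, .eq i j, v => v i = v j
  | _, .rel s w, v => A.rel s (fun k => v (w k))
  | _, .and p q, v => PP.Holds A p v ∧ PP.Holds A q v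
  | _, .ex p, v => ∃ a : A.dom, PP.Holds A p (Fin.snoc v a)

/-- Concatenation of `k` tuples of length `n`. -/
def concat {k n : ℕ} {α : Type} (x : Fin k → Fin n → α) : Fin (k * n) → α :=
  fun j => x (finProdFinEquiv.symm j).1 (finProdFinEquiv.symm j).2

/-- Homomorphisms between two structures over the same signature. -/
def IsHom {S : Type} {ar : S → ℕ} {X Y : Type} (R : ∀ s, (Fin (ar s) → X) → Prop)
    (Q : ∀ s, (Fin (ar s) → Y) → Prop) (h : X → Y) : Prop :=
  ∀ s x, R s x → Q s (fun k => h (x k))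

/-- The relations of the pp-power given by the formulas `φ` (domain) and `ψ`. -/
def ppRel (A : FStr) {S : Type} {ar : S → ℕ} {n : ℕ} (φ : PP A.sym A.ar n)
    (ψ : ∀ s : S, PP A.sym A.ar (ar s * n)) (s : S)
    (x : Fin (ar s) → {x : Fin n → A.dom // φ.Holds A x}) : Prop :=
  (ψ s).Holds A (concat (fun i => (x i).1))

/-- `A` pp-constructs `B`: some pp-power of `A` is homomorphically equivalent to `B`. -/
def PPConstructs (A B : FStr) : Prop :=
  ∃ (n : ℕ) (φ : PP A.sym A.ar n) (ψ : ∀ s : B.sym, PP A.sym A.ar (B.ar s * n)),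
    (∃ h : {x : Fin n → A.dom // φ.Holds A x} → B.dom, IsHom (ppRel A φ ψ) B.rel h) ∧
    (∃ h : B.dom → {x : Fin n → A.dom // φ.Holds A x}, IsHom B.rel (ppRel A φ ψ) h)

/-- pp-interconstructibility. -/
def Inter (A B : FStr) : Prop := PPConstructs A B ∧ PPConstructs B A

/-- The structure of a permutation group: one binary relation `{(x, g x)}` for each `g`. -/
def permStr (G : Type) [Group G] [Finite G] (X : Type) [Finite X] [MulAction G X] : FStr where
  dom := X
  finDom := inferInstance
  sym := G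
  finSym := inferInstance
  ar _ := 2
  rel g x := x 1 = g • x 0

/-- `P₁ = ({0,1}; <)`. -/
def P1 : FStr where
  dom := Fin 2
  finDom := inferInstance
  sym := Unit
  finSym := inferInstance
  ar _ := 2
  rel _ x := x 0 < x 1

/-- Condition (M). -/
def CondM (A : FStr) : Prop :=
  ∃ f : Pol A 3, ∀ x y : A.dom, f.1 ![x, y, y] = f.1 ![x, x, x] ∧ f.1 ![y, y, x] = f.1 ![x, x, x]

/-- Condition (S): guarded fully symmetric polymorphisms of all arities. -/
def CondS (A : FStr) : Prop :=
  ∀ n : ℕ, 1 ≤ n → ∃ f : Pol A (n + 1),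
    (∀ (σ : Equiv.Perm (Fin n)) (x : A.dom) (y : Fin n → A.dom),
      f.1 (Fin.cons x (y ∘ σ)) = f.1 (Fin.cons x y)) ∧
    ∀ x₁ x₂ y : A.dom, f.1 (Fin.cons x₁ (fun _ => y)) = f.1 (Fin.cons x₂ (fun _ => y))

/-! ## minors -/

/-- The minor `x ↦ f (x ∘ π)`. -/
def Pol.minor {A : FStr} {n m : ℕ} (f : Pol A n) (π : Fin n → Fin m) : Pol A m :=
  ⟨fun x => f.1 (fun i => x (π i)), fun s x hx => f.2 s (fun i => x (π i)) (fun i => hx (π i))⟩

/-- There is a minor-preserving map `Pol A → Pol B`. -/
def MinorMap (A B : FStr) : Prop :=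
  ∃ ξ : ∀ n, Pol A n → Pol B n, ∀ (n m : ℕ) (π : Fin n → Fin m) (f : Pol A n),
    ξ m (f.minor π) = (ξ n f).minor π

end Pool.Agent.H796R3
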