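import Mathlib
import Pool.Agent.H796R3.Defs

set_option autoImplicit false

namespace Pool.Agent.H796R3

/-- idempotent polymorphisms -/
def PolId (A : FStr) (n : ℕ) : Type := {f : Pol A n // ∀ x : A.dom, f.1 (fun _ => x) = x}

/-- endomorphisms -/
def IsEnd (A : FStr) (e : A.dom → A.dom) : Prop :=
  ∀ (s : A.sym) (r : Fin (A.ar s) → A.dom), A.rel s r → A.rel s (fun k => e (r k))

/-- the substructure on the image of `e` -/
def imStr (A : FStr) (e : A.dom → A.dom) : FStr where
  dom := Set.range e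
  finDom := inferInstance
  sym := A.sym
  finSym := inferInstance
  ar := A.ar
  rel s r := A.rel s (fun k => (r k).1)

/-- bijective endomorphisms have endomorphic inverses -/
theorem inv_end (A : FStr) (h : A.dom → A.dom) (hh : IsEnd A h) (hb : Function.Bijective h) :
    IsEnd A (Equiv.ofBijective h hb).symm := by
  intro s r hr
  let F : {r : Fin (A.ar s) → A.dom // A.rel s r} → {r : Fin (A.ar s) → A.dom // A.rel s r} :=
    fun r => ⟨fun k => h (r.1 k), hh s r.1 r.2⟩
  have hF : Function.Injective F := by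
    intro a b hab
    apply Subtype.ext
    funext k
    exact hb.1 (congrFun (congrArg Subtype.val hab) k)
  obtain ⟨r', hr'⟩ := (Finite.surjective_of_injective hF) ⟨r, hr⟩
  have h1 : ∀ k, h (r'.1 k) = r k := fun k => congrFun (congrArg Subtype.val hr') k
  have h2 : (fun k => (Equiv.ofBijective h hb).symm (r k)) = r'.1 := by
    funext k
    rw [← h1 k]
    exact Equiv.ofBijective_symm_apply_apply h hb _
  rw [h2]
  exact r'.2

theorem core_red (A : FStr) (hno : ¬ ∃ f : Pol A 1, ∀ x y : A.dom, f.1 (fun _ => x) = f.1 (fun _ => y)) : ∃ A' : FStr, (∃ x y : A'.dom, x ≠ y) ∧ MinorMap A' A ∧ ∃ ξ : ∀ n, Pol A n → PolId A' n, ∀ (n m : ℕ) (π : Fin n → Fin m) (f : Pol A n), (ξ m (f.minor π)).1 = ((ξ n f).1).minor π := by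
  classical
  obtain ⟨e, he, hmin⟩ := Set.exists_min_image {e : A.dom → A.dom | IsEnd A e}
    (fun e => (Set.range e).ncard) (Set.toFinite _) ⟨id, fun s r hr => hr⟩
  have he' : IsEnd A e := he
  -- every endomorphism of the image is bijective
  have hbij : ∀ h : (imStr A e).dom → (imStr A e).dom, IsEnd (imStr A e) h → Function.Bijective h := by
    intro h hh
    have hfin : Finite (imStr A e).dom := (imStr A e).finDom
    apply Finite.surjective_iff_bijective.mp
    let e' : A.dom → A.dom := fun a => (h ⟨e a, ⟨a, rfl⟩⟩).1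
    have he'' : IsEnd A e' := by
      intro s r hr
      exact hh s (fun k => ⟨e (r k), ⟨r k, rfl⟩⟩) (he' s r hr)
    have h1 := hmin e' he''
    have h2 : Set.range e' ⊆ Set.range e := by
      rintro _ ⟨a, rfl⟩
      exact (h ⟨e a, ⟨a, rfl⟩⟩).2
    have h3 : Set.range e' = Set.range e :=
      Set.eq_of_subset_of_ncard_le h2 h1 (Set.toFinite _)
    rintro ⟨b, hb⟩
    have hb' := hb
    rw [← h3] at hb'
    obtain ⟨a, ha⟩ := hb'
    exact ⟨⟨e a, ⟨a, rfl⟩⟩, Subtype.ext ha⟩
  -- restriction of e ∘ f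
  let G : ∀ {n : ℕ}, Pol A n → Pol (imStr A e) n := fun {n} f =>
    ⟨fun x => ⟨e (f.1 (fun i => (x i).1)), ⟨_, rfl⟩⟩, by
      intro s x hx
      exact he' s _ (f.2 s (fun i k => (x i k).1) hx)⟩
  let dg : ∀ {n : ℕ}, Pol A n → (imStr A e).dom → (imStr A e).dom := fun f x => (G f).1 (fun _ => x)
  have hdg : ∀ {n : ℕ} (f : Pol A n), IsEnd (imStr A e) (dg f) := by
    intro n f s r hr
    exact (G f).2 s (fun _ => r) (fun _ => hr)
  refine ⟨imStr A e, ?_, ?_, ?_⟩
  · by_contra hcon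
    push Not at hcon
    apply hno
    refine ⟨⟨fun x => e (x 0), ?_⟩, fun x y => ?_⟩
    · intro s x hx
      exact he' s _ (hx 0)
    · exact congrArg Subtype.val (hcon ⟨e x, ⟨x, rfl⟩⟩ ⟨e y, ⟨y, rfl⟩⟩)
  · refine ⟨fun n g => ⟨fun x => (g.1 (fun i => ⟨e (x i), ⟨x i, rfl⟩⟩)).1, ?_⟩, fun n m π f => rfl⟩
    intro s x hx
    exact g.2 s (fun i k => ⟨e (x i k), ⟨x i k, rfl⟩⟩) (fun i => he' s _ (hx i))
  · let ξ : ∀ n, Pol A n → PolId (imStr A e) n := fun n f =>
      ⟨⟨fun x => (Equiv.ofBijective (dg f) (hbij _ (hdg f))).symm ((G f).1 x), by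
        intro s x hx
        exact inv_end _ _ (hdg f) (hbij _ (hdg f)) s _ ((G f).2 s x hx)⟩, by
        intro x
        exact Equiv.ofBijective_symm_apply_apply (dg f) (hbij _ (hdg f)) x⟩
    exact ⟨ξ, fun n m π f => rfl⟩

end Pool.Agent.H796R3
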