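import Pool.Agent.H796R3.Main
import Pool.Agent.H796R3.TaskD

/-!
# The class of algebras attached to a finite structure with a Maltsev polymorphism
and guarded symmetric polymorphisms
-/

set_option autoImplicit false

namespace Pool.Agent.H796R3

/-! ## transfer of the identities -/

theorem Good.sub {S : ℕ → Type} {m : S 3} {sy : ∀ n, S (n + 1)} {R : Alg S} (h : Good m sy R)
    (B : SubA R) : Good m sy B.alg := by
  refine ⟨fun x y => Subtype.ext ?_, fun x y => Subtype.ext ?_,
    fun n σ x y hn => Subtype.ext ?_, fun n x y hn => Subtype.ext ?_⟩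
  · show R.op m (fun i => ((![x, y, y] : Fin 3 → B.alg.car) i).1) = x.1
    rw [← h.m1 x.1 y.1]
    congr 1
    funext i
    fin_cases i <;> rfl
  · show R.op m (fun i => ((![y, y, x] : Fin 3 → B.alg.car) i).1) = x.1
    rw [← h.m2 x.1 y.1]
    congr 1
    funext i
    fin_cases i <;> rfl
  · have e := h.s1 n σ x.1 (fun i => (y i).1) hn
    have e1 : (fun i => ((Fin.cons x (y ∘ σ) : Fin (n + 1) → B.alg.car) i).1) =
        Fin.cons x.1 ((fun i => (y i).1) ∘ σ) := by
      funext i
      refine Fin.cases rfl (fun j => rfl) i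
    have e2 : (fun i => ((Fin.cons x y : Fin (n + 1) → B.alg.car) i).1) =
        Fin.cons x.1 (fun i => (y i).1) := by
      funext i
      refine Fin.cases rfl (fun j => rfl) i
    show R.op (sy n) (fun i => ((Fin.cons x (y ∘ σ) : Fin (n + 1) → B.alg.car) i).1) =
      R.op (sy n) (fun i => ((Fin.cons x y : Fin (n + 1) → B.alg.car) i).1)
    rw [e1, e2]
    exact e
  · have e := h.s2 n x.1 y.1 hn
    have e1 : (fun i => ((Fin.cons x (fun _ => y) : Fin (n + 1) → B.alg.car) i).1) =
        Fin.cons x.1 (fun _ => y.1) := by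
      funext i
      refine Fin.cases rfl (fun j => rfl) i
    show R.op (sy n) (fun i => ((Fin.cons x (fun _ => y) : Fin (n + 1) → B.alg.car) i).1) = y.1
    rw [e1]
    exact e

theorem Good.surj {S : ℕ → Type} {m : S 3} {sy : ∀ n, S (n + 1)} {R R' : Alg S}
    (h : Good m sy R) (f : R.car → R'.car)
    (hf : ∀ {n : ℕ} (s : S n) (x : Fin n → R.car), f (R.op s x) = R'.op s (fun i => f (x i)))
    (hs : Function.Surjective f) : Good m sy R' := by
  refine ⟨fun x y => ?_, fun x y => ?_, fun n σ x y hn => ?_, fun n x y hn => ?_⟩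
  · obtain ⟨x, rfl⟩ := hs x
    obtain ⟨y, rfl⟩ := hs y
    have e : (![f x, f y, f y] : Fin 3 → R'.car) = fun i => f ((![x, y, y] : Fin 3 → R.car) i) := by
      funext i
      fin_cases i <;> rfl
    rw [e, ← hf, h.m1]
  · obtain ⟨x, rfl⟩ := hs x
    obtain ⟨y, rfl⟩ := hs y
    have e : (![f y, f y, f x] : Fin 3 → R'.car) = fun i => f ((![y, y, x] : Fin 3 → R.car) i) := by
      funext i
      fin_cases i <;> rfl
    rw [e, ← hf, h.m2]
  · obtain ⟨x, rfl⟩ := hs x
    choose z hz using fun i => hs (y i)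
    have ey : y = fun i => f (z i) := funext (fun i => (hz i).symm)
    subst ey
    have e1 : (Fin.cons (f x) ((fun i => f (z i)) ∘ σ) : Fin (n + 1) → R'.car) =
        fun i => f ((Fin.cons x (z ∘ σ) : Fin (n + 1) → R.car) i) := by
      funext i
      refine Fin.cases rfl (fun j => rfl) i
    have e2 : (Fin.cons (f x) (fun i => f (z i)) : Fin (n + 1) → R'.car) =
        fun i => f ((Fin.cons x z : Fin (n + 1) → R.car) i) := by
      funext i
      refine Fin.cases rfl (fun j => rfl) i
    rw [e1, e2, ← hf, ← hf, h.s1 n σ x z hn]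
  · obtain ⟨x, rfl⟩ := hs x
    obtain ⟨y, rfl⟩ := hs y
    have e1 : (Fin.cons (f x) (fun _ => f y) : Fin (n + 1) → R'.car) =
        fun i => f ((Fin.cons x (fun _ => y) : Fin (n + 1) → R.car) i) := by
      funext i
      refine Fin.cases rfl (fun j => rfl) i
    rw [e1, ← hf, h.s2 n x y hn]

/-! ## the root algebras -/

/-- minors of idempotent polymorphisms -/
def PolId.minor {A : FStr} {n k : ℕ} (f : PolId A n) (π : Fin n → Fin k) : PolId A k :=
  ⟨f.1.minor π, fun x => f.2 x⟩

/-- the domain as an algebra -/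
def rootD (A : FStr) : Alg (PolId A) := ⟨A.dom, inferInstance, fun f x => f.1.1 x⟩

/-- a relation as an algebra -/
def rootR (A : FStr) (s : A.sym) : Alg (PolId A) where
  car := {x : Fin (A.ar s) → A.dom // A.rel s x}
  fin := inferInstance
  op f x := ⟨fun k => f.1.1 (fun i => (x i).1 k), f.1.2 s (fun i => (x i).1) (fun i => (x i).2)⟩

/-- the root algebras -/
def root (A : FStr) : Option A.sym → Alg (PolId A)
  | none => rootD A
  | some s => rootR A s

/-- the operations respect minors -/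
def MinorLaw {A : FStr} (R : Alg (PolId A)) : Prop :=
  ∀ (n k : ℕ) (f : PolId A n) (π : Fin n → Fin k) (x : Fin k → R.car),
    R.op (f.minor π) x = R.op f (fun i => x (π i))

theorem MinorLaw.root (A : FStr) (j : Option A.sym) : MinorLaw (root A j) := by
  intro n k f π x
  cases j with
  | none => rfl
  | some s => rfl

theorem MinorLaw.sub {A : FStr} {R : Alg (PolId A)} (h : MinorLaw R) (B : SubA R) :
    MinorLaw B.alg := by
  intro n k f π x
  exact Subtype.ext (h n k f π (fun i => (x i).1))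

theorem MinorLaw.quot {A : FStr} {R : Alg (PolId A)} (h : MinorLaw R) (α : Cgr R) :
    MinorLaw α.alg := by
  intro n k f π x
  exact congrArg α.cls (h n k f π (fun i => (x i).out))

/-- the hypotheses on the two families of idempotent polymorphisms -/
structure Hyp {A : FStr} (m : PolId A 3) (sy : ∀ n, PolId A (n + 1)) : Prop where
  m1 : ∀ x y : A.dom, m.1.1 ![x, y, y] = x
  m2 : ∀ x y : A.dom, m.1.1 ![y, y, x] = x
  s1 : ∀ (n : ℕ) (σ : Equiv.Perm (Fin n)) (x : A.dom) (y : Fin n → A.dom), 1 ≤ n →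
    (sy n).1.1 (Fin.cons x (y ∘ σ)) = (sy n).1.1 (Fin.cons x y)
  s2 : ∀ (n : ℕ) (x y : A.dom), 1 ≤ n → (sy n).1.1 (Fin.cons x (fun _ => y)) = y

theorem Hyp.root {A : FStr} {m : PolId A 3} {sy : ∀ n, PolId A (n + 1)} (h : Hyp m sy)
    (j : Option A.sym) : Good m sy (root A j) := by
  cases j with
  | none => exact ⟨h.m1, h.m2, h.s1, h.s2⟩
  | some s =>
    refine ⟨fun x y => Subtype.ext (funext fun k => ?_), fun x y => Subtype.ext (funext fun k => ?_),
      fun n σ x y hn => Subtype.ext (funext fun k => ?_),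
      fun n x y hn => Subtype.ext (funext fun k => ?_)⟩
    · have e := h.m1 (x.1 k) (y.1 k)
      have e1 : (fun i => ((![x, y, y] : Fin 3 → (rootR A s).car) i).1 k) =
          ![x.1 k, y.1 k, y.1 k] := by
        funext i
        fin_cases i <;> rfl
      show m.1.1 (fun i => ((![x, y, y] : Fin 3 → (rootR A s).car) i).1 k) = _
      rw [e1]
      exact e
    · have e := h.m2 (x.1 k) (y.1 k)
      have e1 : (fun i => ((![y, y, x] : Fin 3 → (rootR A s).car) i).1 k) =
          ![y.1 k, y.1 k, x.1 k] := by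
        funext i
        fin_cases i <;> rfl
      show m.1.1 (fun i => ((![y, y, x] : Fin 3 → (rootR A s).car) i).1 k) = _
      rw [e1]
      exact e
    · have e := h.s1 n σ (x.1 k) (fun i => (y i).1 k) hn
      have e1 : (fun i => ((Fin.cons x (y ∘ σ) : Fin (n + 1) → (rootR A s).car) i).1 k) =
          Fin.cons (x.1 k) ((fun i => (y i).1 k) ∘ σ) := by
        funext i
        refine Fin.cases rfl (fun j => rfl) i
      have e2 : (fun i => ((Fin.cons x y : Fin (n + 1) → (rootR A s).car) i).1 k) =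
          Fin.cons (x.1 k) (fun i => (y i).1 k) := by
        funext i
        refine Fin.cases rfl (fun j => rfl) i
      show (sy n).1.1 (fun i => ((Fin.cons x (y ∘ σ) : Fin (n + 1) → (rootR A s).car) i).1 k) =
        (sy n).1.1 (fun i => ((Fin.cons x y : Fin (n + 1) → (rootR A s).car) i).1 k)
      rw [e1, e2]
      exact e
    · have e := h.s2 n (x.1 k) (y.1 k) hn
      have e1 : (fun i => ((Fin.cons x (fun _ => y) : Fin (n + 1) → (rootR A s).car) i).1 k) =
          Fin.cons (x.1 k) (fun _ => y.1 k) := by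
        funext i
        refine Fin.cases rfl (fun j => rfl) i
      show (sy n).1.1 (fun i => ((Fin.cons x (fun _ => y) : Fin (n + 1) →
        (rootR A s).car) i).1 k) = _
      rw [e1]
      exact e

/-! ## the class -/

/-- quotients of nonempty subalgebras of root algebras -/
def VV (A : FStr) (R : Alg (PolId A)) : Prop :=
  ∃ (j : Option A.sym) (B : SubA (root A j)) (f : B.alg.car → R.car),
    (∀ (n : ℕ) (s : PolId A n) (x : Fin n → B.alg.car),
      f (B.alg.op s x) = R.op s (fun i => f (x i))) ∧ Function.Surjective f ∧ ∃ x, B.mem x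

/-- the index set of the representatives -/
def LL (A : FStr) : Type :=
  Σ j : Option A.sym, Σ B : {B : SubA (root A j) // ∃ x, B.mem x}, Cgr B.1.alg

/-- the representatives -/
noncomputable def QQ (A : FStr) (l : LL A) : Alg (PolId A) := l.2.2.alg

instance SubA.finite {S : ℕ → Type} (R : Alg S) : Finite (SubA R) := by
  refine Finite.of_injective (fun α : SubA R => α.mem) (fun α β h => ?_)
  cases α
  cases β
  simp only at h
  subst h
  rfl

instance LL.finite (A : FStr) : Finite (LL A) := by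
  unfold LL
  infer_instance

theorem QQ.nonempty (A : FStr) (l : LL A) : Nonempty (QQ A l).car := by
  obtain ⟨j, ⟨B, x, hx⟩, c⟩ := l
  exact ⟨c.cls ⟨x, hx⟩⟩

theorem QQ.minor (A : FStr) (l : LL A) : MinorLaw (QQ A l) :=
  ((MinorLaw.root A l.1).sub l.2.1.1).quot l.2.2

/-- The setup. -/
noncomputable def conc {A : FStr} {m : PolId A 3} {sy : ∀ n, PolId A (n + 1)} (h : Hyp m sy) :
    Setup (PolId A) where
  m := m
  sy := sy
  L := LL A
  Q := QQ A
  V := VV A
  good := by
    rintro R ⟨j, B, f, hf, hs, -⟩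
    exact ((h.root j).sub B).surj f (fun s x => hf _ s x) hs
  hsub := by
    rintro R ⟨j, B, f, hf, hs, -⟩ T ⟨x, hx⟩
    let B' : SubA (root A j) := ⟨fun x => ∃ h : B.mem x, T.mem (f ⟨x, h⟩), by
      intro n s x hx
      choose h1 h2 using hx
      refine ⟨B.closed s x h1, ?_⟩
      have e := hf n s (fun i => ⟨x i, h1 i⟩)
      have e' := T.closed s _ h2
      rw [← e] at e'
      exact e'⟩
    refine ⟨j, B', fun x => ⟨f ⟨x.1, x.2.1⟩, x.2.2⟩, ?_, ?_, ?_⟩
    · intro n s x
      exact Subtype.ext (hf n s (fun i => ⟨(x i).1, (x i).2.1⟩))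
    · rintro ⟨y, hy⟩
      obtain ⟨⟨x, hx⟩, rfl⟩ := hs y
      exact ⟨⟨x, hx, hy⟩, rfl⟩
    · obtain ⟨⟨z, hz⟩, rfl⟩ := hs x
      exact ⟨z, hz, hx⟩
  hquot := by
    rintro R ⟨j, B, f, hf, hs, hB⟩ α
    refine ⟨j, B, fun x => α.cls (f x), ?_, ?_, hB⟩
    · intro n s x
      exact (congrArg α.cls (hf n s x)).trans (α.cls_op s _)
    · intro y
      obtain ⟨z, rfl⟩ := α.cls_surj y
      obtain ⟨x, rfl⟩ := hs z
      exact ⟨x, rfl⟩
  rep := by
    rintro R ⟨j, B, f, hf, hs, hB⟩
    obtain ⟨ι, -⟩ := quotIso (kerC f (fun s x => hf _ s x)) f (fun s x => hf _ s x) hs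
      (fun x y => Iff.rfl)
    exact ⟨⟨j, ⟨B, hB⟩, kerC f (fun s x => hf _ s x)⟩, ⟨ι.symm⟩⟩

theorem VV.root (A : FStr) (j : Option A.sym) (h : Nonempty (root A j).car) :
    VV A (root A j) := by
  refine ⟨j, ⟨fun _ => True, fun _ _ _ => trivial⟩, Subtype.val, fun n s x => rfl,
    fun x => ⟨⟨x, trivial⟩, rfl⟩, ⟨h.some, trivial⟩⟩

/-! ## the minor maps -/

/-- from the minion `N` to the polymorphisms -/
theorem nnToPol {A : FStr} {m : PolId A 3} {sy : ∀ n, PolId A (n + 1)} (h : Hyp m sy) :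
    ∃ F : ∀ n, NN (QQ A) (Fin n) → Pol A n, ∀ (n k : ℕ) (π : Fin n → Fin k)
      (D : NN (QQ A) (Fin n)), F k (D.map π) = (F n D).minor π := by
  let C := conc h
  refine ⟨fun n D => ⟨fun x => Phi sy (rootD A) (D.map x), ?_⟩, fun n k π D => rfl⟩
  intro s x hx
  obtain ⟨i0⟩ := D.nonempty
  have vR : C.V (rootR A s) := VV.root A (some s) ⟨(⟨x i0, hx i0⟩ : (rootR A s).car)⟩
  let y : Fin n → (rootR A s).car := fun i => ⟨x i, hx i⟩
  have key : (fun k => Phi sy (rootD A) (D.map (fun i => x i k))) =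
      (Phi sy (rootR A s) (D.map y)).1 := by
    funext k
    have vD : C.V (rootD A) := VV.root A none ⟨x i0 k⟩
    exact nat_hom C vR vD (D.map y) (fun z => z.1 k) (fun f z => rfl)
  show A.rel s (fun k => Phi sy (rootD A) (D.map (fun i => x i k)))
  rw [key]
  exact (Phi sy (rootR A s) (D.map y)).2

/-- the Boolean part of an idempotent polymorphism -/
theorem boolPart (A : FStr) (hne : ∃ x y : A.dom, x ≠ y) :
    ∃ b : ∀ n, PolId A n → (Fin n → Fin 2) → Fin 2, (∀ n f c, b n f (fun _ => c) = c) ∧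
      ∀ (n k : ℕ) (π : Fin n → Fin k) (f : PolId A n) (ψ : Fin k → Fin 2),
        b k (f.minor π) ψ = b n f (fun i => ψ (π i)) := by
  classical
  obtain ⟨x, y, hxy⟩ := hne
  let ι : Fin 2 → A.dom := fun c => if c = 0 then x else y
  let χ : A.dom → Fin 2 := fun z => if z = x then 0 else 1
  refine ⟨fun n f ψ => χ (f.1.1 (fun i => ι (ψ i))), ?_, fun n k π f ψ => rfl⟩
  intro n f c
  show χ (f.1.1 (fun i => ι c)) = c
  rw [f.2 (ι c)]
  simp only [χ, ι]
  fin_cases c
  · simp
  · simp [hxy.symm]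

/-- from the idempotent polymorphisms to the minion `N` -/
theorem polToNN (A : FStr) (hne : ∃ x y : A.dom, x ≠ y) :
    ∃ E : ∀ n, PolId A n → NN (QQ A) (Fin n), ∀ (n k : ℕ) (π : Fin n → Fin k) (f : PolId A n),
      E k (f.minor π) = (E n f).map π := by
  obtain ⟨b, hb1, hb2⟩ := boolPart A hne
  refine ⟨fun n f => ⟨fun l ψ => (QQ A l).op f ψ, b n f, fun l g ψ => (g.map f ψ).symm,
    fun c => hb1 n f c⟩, ?_⟩
  intro n k π f
  apply NN.ext
  · funext l ψ
    exact QQ.minor A l n k f π ψ
  · funext ψ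
    exact hb2 n k π f ψ

end Pool.Agent.H796R3
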