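import Pool.Agent.H796R3.Alg

/-!
# No abelian congruences; the distributive law `D2`
-/

set_option autoImplicit false

namespace Pool.Agent.H796R3

variable {S : ℕ → Type} {R : Alg S} {m : S 3} {sy : ∀ n, S (n + 1)}

/-- The value of the symmetric operation at `k` copies of `b` and `N - k` copies of `a`. -/
def tk (R : Alg S) (sy : ∀ n, S (n + 1)) (N : ℕ) (a b : R.car) (k : ℕ) : R.car :=
  R.op (sy N) (Fin.cons a (fun j : Fin N => if j.1 < k then b else a))

theorem abel_trivial (hg : Good m sy R) {δ κ : Cgr R} (h : Cent δ δ κ)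
    {a b : R.car} (hab : δ.r a b) : κ.r a b := by
  classical
  obtain ⟨C, hC⟩ : ∃ C, C = Nat.card R.car := ⟨_, rfl⟩
  set N := C.factorial with hN
  have hN1 : 1 ≤ N := Nat.factorial_pos C
  have hCN : C ≤ N := Nat.self_le_factorial C
  set c : R.car := R.op (sy N) (Fin.cons a (fun j : Fin N => if j.1 = 0 then b else a)) with hc
  have hc' : ∀ k (hk : k < N),
      R.op (sy N) (Fin.cons a (fun j : Fin N => if j.1 = k then b else a)) = c := by
    intro k hk
    have h1 := hg.s1 N (Equiv.swap (⟨0, hN1⟩ : Fin N) ⟨k, hk⟩) a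
      (fun j : Fin N => if j.1 = 0 then b else a) hN1
    rw [hc, ← h1]
    congr 2
    funext j
    simp only [Function.comp]
    by_cases hj : j = ⟨k, hk⟩
    · subst hj
      simp
    · by_cases hj0 : j = ⟨0, hN1⟩
      · subst hj0
        simp only [Equiv.swap_apply_left]
        have : (0 : ℕ) ≠ k := fun e => hj (by simp [e])
        simp [this, this.symm]
      · rw [Equiv.swap_apply_of_ne_of_ne hj0 hj]
        have e1 : j.1 ≠ k := fun e => hj (Fin.ext e)
        have e2 : j.1 ≠ 0 := fun e => hj0 (Fin.ext e)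
        simp [e1, e2]
  set t := tk R sy N a b with ht
  have t0 : t 0 = a := by
    simp only [ht, tk, Nat.not_lt_zero, if_false]
    exact hg.s2 N a a hN1
  have tN : t N = b := by
    simp only [ht, tk, Fin.is_lt, if_true]
    exact hg.s2 N a b hN1
  have hδa : ∀ (P : Fin N → Prop) [DecidablePred P],
      δ.r (R.op (sy N) (Fin.cons a (fun j : Fin N => if P j then b else a))) a := by
    intro P _
    have h1 : δ.r (R.op (sy N) (Fin.cons a (fun j : Fin N => if P j then b else a)))
        (R.op (sy N) (Fin.cons a (fun _ => a))) := by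
      refine δ.comp _ _ _ (fun i => ?_)
      refine Fin.cases ?_ (fun j => ?_) i
      · exact δ.eqv.refl _
      · simp only [Fin.cons_succ]
        split_ifs
        · exact δ.eqv.symm hab
        · exact δ.eqv.refl _
    rwa [hg.s2 N a a hN1] at h1
  have hδc : δ.r c a := hδa _
  have hδt : ∀ k, δ.r (t k) a := fun k => hδa _
  -- the recurrence
  have step : ∀ k, k < N → κ.r (t (k + 1)) (R.op m ![t k, a, c]) := by
    intro k hk
    have h1 := cent_comm hg h (sy N)
      (Fin.cons a (fun j : Fin N => if j.1 < k then b else a))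
      (Fin.cons a (fun _ => a))
      (Fin.cons a (fun j : Fin N => if j.1 = k then b else a))
      (by
        intro i
        refine Fin.cases ?_ (fun j => ?_) i
        · exact δ.eqv.refl _
        · simp only [Fin.cons_succ]
          split_ifs
          · exact δ.eqv.symm hab
          · exact δ.eqv.refl _)
      (by
        intro i
        refine Fin.cases ?_ (fun j => ?_) i
        · exact δ.eqv.refl _
        · simp only [Fin.cons_succ]
          split_ifs
          · exact hab
          · exact δ.eqv.refl _)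
    rw [hg.s2 N a a hN1, hc' k hk] at h1
    suffices e : t (k + 1) = R.op (sy N) (fun i => R.op m
        ![(Fin.cons a (fun j : Fin N => if j.1 < k then b else a) : Fin (N + 1) → R.car) i,
          (Fin.cons a (fun _ => a) : Fin (N + 1) → R.car) i,
          (Fin.cons a (fun j : Fin N => if j.1 = k then b else a) : Fin (N + 1) → R.car) i]) by
      rw [e]
      exact h1
    simp only [ht, tk]
    congr 1
    funext i
    refine Fin.cases ?_ (fun j => ?_) i
    · simp only [Fin.cons_zero]
      exact (hg.m1 a a).symm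
    · simp only [Fin.cons_succ]
      rcases lt_trichotomy j.1 k with hj | hj | hj
      · rw [if_pos (by omega), if_pos hj, if_neg (by omega), hg.m1]
      · rw [if_pos (by omega), if_neg (by omega), if_pos hj, hg.m2]
      · rw [if_neg (by omega), if_neg (by omega), if_neg (by omega), hg.m1]
  -- injectivity of `x ↦ m x a c` on the block
  have inj : ∀ x y, δ.r x y → κ.r (R.op m ![x, a, c]) (R.op m ![y, a, c]) → κ.r x y := by
    intro x y hxy hk
    have M : Mat R δ.r δ.r (R.op m ![x, a, c]) (R.op m ![y, a, c]) (R.op m ![x, a, a])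
        (R.op m ![y, a, a]) :=
      Mat.op3 m (Mat.col hxy) (Mat.row (δ.eqv.refl a)) (Mat.row hδc)
    have := h _ _ _ _ M hk
    rwa [hg.m1, hg.m1] at this
  have cong : ∀ x y, κ.r x y → κ.r (R.op m ![x, a, c]) (R.op m ![y, a, c]) :=
    fun x y hxy => κ.comp3 m hxy (κ.eqv.refl _) (κ.eqv.refl _)
  have desc : ∀ i p, i + p ≤ N → κ.r (t i) (t (i + p)) → κ.r (t 0) (t p) := by
    intro i
    induction i with
    | zero => intro p _ hp; simpa using hp
    | succ i ih =>
      intro p hp hk
      refine ih p (by omega) ?_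
      have h1 := step i (by omega)
      have h2 := step (i + p) (by omega)
      have h3 : κ.r (t (i + 1)) (t (i + p + 1)) := by
        have : i + 1 + p = i + p + 1 := by omega
        rwa [this] at hk
      refine inj _ _ (δ.eqv.trans (hδt _) (δ.eqv.symm (hδt _))) ?_
      exact κ.eqv.trans (κ.eqv.symm h1) (κ.eqv.trans h3 h2)
  have asc : ∀ p, κ.r (t 0) (t p) → ∀ k, k + p ≤ N → κ.r (t k) (t (k + p)) := by
    intro p hp k
    induction k with
    | zero => intro _; simpa using hp
    | succ k ih =>
      intro hk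
      have h1 := step k (by omega)
      have h2 := step (k + p) (by omega)
      have h3 := cong _ _ (ih (by omega))
      have : k + 1 + p = k + p + 1 := by omega
      rw [this]
      exact κ.eqv.trans h1 (κ.eqv.trans h3 (κ.eqv.symm h2))
  have mult : ∀ p, κ.r (t 0) (t p) → ∀ q, q * p ≤ N → κ.r (t 0) (t (q * p)) := by
    intro p hp q
    induction q with
    | zero => intro _; simpa using κ.eqv.refl _
    | succ q ih =>
      intro hq
      have e : (q + 1) * p = q * p + p := by ring
      rw [e] at hq ⊢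
      exact κ.eqv.trans (ih (by omega)) (asc p hp (q * p) hq)
  -- pigeonhole
  obtain ⟨i, j, hij, hjC, he⟩ : ∃ i j : ℕ, i < j ∧ j ≤ C ∧ t i = t j := by
    haveI := Fintype.ofFinite R.car
    have hcard : Fintype.card R.car < Fintype.card (Fin (C + 1)) := by
      rw [Fintype.card_fin, hC, Nat.card_eq_fintype_card]
      omega
    obtain ⟨x, y, hxy, he⟩ := Fintype.exists_ne_map_eq_of_card_lt
      (fun i : Fin (C + 1) => t i.1) hcard
    rcases lt_or_gt_of_ne (fun e => hxy (Fin.ext e) : x.1 ≠ y.1) with hlt | hlt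
    · exact ⟨x.1, y.1, hlt, by omega, he⟩
    · exact ⟨y.1, x.1, hlt, by omega, he.symm⟩
  have hp : κ.r (t 0) (t (j - i)) := by
    refine desc i (j - i) (by omega) ?_
    have : i + (j - i) = j := by omega
    rw [this, he]
    exact κ.eqv.refl _
  obtain ⟨q, hq⟩ : (j - i) ∣ N := Nat.dvd_factorial (by omega) (by omega)
  have h1 := mult (j - i) hp q (by rw [mul_comm, ← hq])
  rw [mul_comm, ← hq, t0, tN] at h1
  exact h1

/-- The distributive law `(β ∨ θ) ∧ (γ ∨ θ) ≤ (β ∧ γ) ∨ θ`. -/
theorem D2 (hg : Good m sy R) (β γ θ : Cgr R) {x y : R.car}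
    (h1 : ∃ z, β.r x z ∧ θ.r z y) (h2 : ∃ z, γ.r x z ∧ θ.r z y) :
    ∃ z, (β.r x z ∧ γ.r x z) ∧ θ.r z y := by
  let κ := Cgr.join hg (β.inf γ) θ
  have c1 : Cent β γ κ := cent_of_inf hg β γ κ (fun x y hb hc => ⟨y, ⟨hb, hc⟩, θ.eqv.refl y⟩)
  have hθκ : ∀ x y, θ.r x y → κ.r x y := fun x y h => ⟨x, ⟨β.eqv.refl x, γ.eqv.refl x⟩, h⟩
  have c3 : Cent (Cgr.join hg β θ) γ κ := Cent.join hg c1 (cent_triv θ γ κ hθκ)
  have c4 : Cent γ (Cgr.join hg β θ) κ := c3.symm hg
  have c6 : Cent (Cgr.join hg γ θ) (Cgr.join hg β θ) κ :=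
    Cent.join hg c4 (cent_triv θ _ κ hθκ)
  let δ := (Cgr.join hg β θ).inf (Cgr.join hg γ θ)
  have c7 : Cent δ δ κ := c6.mono (fun _ _ h => h.2) (fun _ _ h => h.1)
  exact abel_trivial hg c7 (a := x) (b := y) ⟨h1, h2⟩

end Pool.Agent.H796R3
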