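import Mathlib
import Pool.Agent.H796R3.Defs

set_option autoImplicit false

namespace Pool.Agent.H796R3

theorem PP.preserved (A : FStr) {m : ℕ} (f : Pol A m) {n : ℕ} (p : PP A.sym A.ar n) :
    ∀ x : Fin m → Fin n → A.dom, (∀ i, p.Holds A (x i)) → p.Holds A (fun j => f.1 (fun i => x i j)) := by
  induction p with
  | tru => intro x _; trivial
  | eq i j =>
    intro x hx
    exact congrArg f.1 (funext fun k => hx k)
  | rel s w =>
    intro x hx
    exact f.2 s (fun k => fun l => x k (w l)) hx
  | and p q hp hq =>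
    intro x hx
    exact ⟨hp x (fun i => (hx i).1), hq x (fun i => (hx i).2)⟩
  | ex p hp =>
    intro x hx
    choose a ha using hx
    refine ⟨f.1 a, ?_⟩
    have h := hp (fun i => Fin.snoc (x i) (a i)) ha
    have e : (fun j => f.1 (fun i => (Fin.snoc (x i) (a i) : Fin _ → A.dom) j)) =
        (Fin.snoc (fun j => f.1 (fun i => x i j)) (f.1 a) : Fin _ → A.dom) := by
      funext j
      refine Fin.lastCases ?_ (fun j => ?_) j
      · simp
      · simp
    rw [e] at h
    exact h

theorem minorMap_of_pp (A B : FStr) (h : PPConstructs A B) : MinorMap A B := by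
  obtain ⟨n, φ, ψ, ⟨al, hal⟩, ⟨be, hbe⟩⟩ := h
  let F : ∀ {m : ℕ}, Pol A m → (Fin m → {x : Fin n → A.dom // φ.Holds A x}) →
      {x : Fin n → A.dom // φ.Holds A x} := fun f c =>
    ⟨fun j => f.1 (fun i => (c i).1 j), PP.preserved A f φ (fun i => (c i).1) (fun i => (c i).2)⟩
  refine ⟨fun m f => ⟨fun b => al (F f (fun i => be (b i))), ?_⟩, ?_⟩
  · intro s x hx
    apply hal s
    change (ψ s).Holds A (concat (fun k => (F f (fun i => be (x i k))).1))
    have h1 : ∀ i, (ψ s).Holds A (concat (fun k => (be (x i k)).1)) := fun i => hbe s (x i) (hx i)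
    exact PP.preserved A f (ψ s) (fun i => concat (fun k => (be (x i k)).1)) h1
  · intro m k π f
    rfl

end Pool.Agent.H796R3
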