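import Mathlib
import Pool.Agent.H796R3.Defs

set_option autoImplicit false

namespace Pool.Agent.H796R3

section combin
variable {A : FStr}

/-- conjunction of a list -/
def bigAnd {S : Type} {ar : S → ℕ} {n : ℕ} : List (PP S ar n) → PP S ar n
  | [] => .tru
  | p :: l => .and p (bigAnd l)

lemma holds_bigAnd {n : ℕ} (l : List (PP A.sym A.ar n)) (v : Fin n → A.dom) :
    (bigAnd l).Holds A v ↔ ∀ p ∈ l, p.Holds A v := by
  induction l with
  | nil => simp [bigAnd, PP.Holds]
  | cons p l ih =>
    change p.Holds A v ∧ (bigAnd l).Holds A v ↔ _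
    rw [ih]
    simp

/-- conjunction over a finite type -/
noncomputable def conj {S : Type} {ar : S → ℕ} {n : ℕ} (I : Type) [Finite I] (p : I → PP S ar n) :
    PP S ar n :=
  letI := Fintype.ofFinite I
  bigAnd ((Finset.univ : Finset I).toList.map p)

lemma holds_conj {n : ℕ} (I : Type) [Finite I] (p : I → PP A.sym A.ar n) (v : Fin n → A.dom) :
    (conj I p).Holds A v ↔ ∀ i, (p i).Holds A v := by
  unfold conj
  rw [holds_bigAnd]
  simp

/-- `M`-fold existential quantification -/
def exN {S : Type} {ar : S → ℕ} {n : ℕ} : (M : ℕ) → PP S ar (n + M) → PP S ar n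
  | 0, p => p
  | M + 1, p => exN M (.ex p)

lemma holds_exN {n : ℕ} (M : ℕ) (p : PP A.sym A.ar (n + M)) (v : Fin n → A.dom) :
    (exN M p).Holds A v ↔ ∃ w : Fin M → A.dom, p.Holds A (Fin.append v w) := by
  induction M with
  | zero =>
    change p.Holds A v ↔ _
    constructor
    · intro h
      refine ⟨Fin.elim0, ?_⟩
      rw [Fin.append_elim0]
      exact h
    · rintro ⟨w, hw⟩
      have : Fin.append v w = v := by
        rw [Subsingleton.elim w Fin.elim0, Fin.append_elim0]; rfl
      rw [this] at hw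
      exact hw
  | succ M ih =>
    change (exN M (.ex p)).Holds A v ↔ _
    rw [ih]
    constructor
    · rintro ⟨w, a, h⟩
      refine ⟨Fin.snoc w a, ?_⟩
      rw [Fin.append_snoc]
      exact h
    · rintro ⟨w, h⟩
      refine ⟨Fin.init w, w (Fin.last M), ?_⟩
      rw [← Fin.snoc_init_self w, Fin.append_snoc] at h
      exact h

end combin

section polform
variable (A : FStr)

/-- index of atoms saying that a function `(I → A.dom) → A.dom` is a polymorphism -/
def AtomIdx (I : Type) : Type := Σ s : A.sym, (I → {r : Fin (A.ar s) → A.dom // A.rel s r})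

instance (I : Type) [Finite I] : Finite (AtomIdx A I) := by
  unfold AtomIdx
  infer_instance

/-- formula saying that `y ↦ v (pos y)` is a polymorphism -/
noncomputable def polF (I : Type) [Finite I] {n : ℕ} (pos : (I → A.dom) → Fin n) :
    PP A.sym A.ar n :=
  conj (AtomIdx A I) (fun q => .rel q.1 (fun k => pos (fun i => (q.2 i).1 k)))

lemma holds_polF (I : Type) [Finite I] {n : ℕ} (pos : (I → A.dom) → Fin n) (v : Fin n → A.dom) :
    (polF A I pos).Holds A v ↔ IsPol A I (fun y => v (pos y)) := by
  unfold polF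
  rw [holds_conj]
  constructor
  · intro h s x hx
    exact h ⟨s, fun i => ⟨x i, hx i⟩⟩
  · rintro h ⟨s, X⟩
    exact h s (fun i => (X i).1) (fun i => (X i).2)

end polform

theorem pp_of_minorMap (A B : FStr) (h : MinorMap A B) : PPConstructs A B := by
  classical
  obtain ⟨ξ, hξ⟩ := h
  obtain ⟨N, ⟨e⟩⟩ := Finite.exists_equiv_fin (B.dom → A.dom)
  obtain ⟨m, ⟨eB⟩⟩ := Finite.exists_equiv_fin B.dom
  let R : B.sym → Type := fun s => {r : Fin (B.ar s) → B.dom // B.rel s r}
  have hRf : ∀ s, ∃ M, Nonempty ((R s → A.dom) ≃ Fin M) := fun s => Finite.exists_equiv_fin _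
  choose M hM using hRf
  let eM : ∀ s, (R s → A.dom) ≃ Fin (M s) := fun s => (hM s).some
  have hRq : ∀ s, ∃ q, Nonempty (R s ≃ Fin q) := fun s => Finite.exists_equiv_fin _
  choose q hq using hRq
  let eR : ∀ s, R s ≃ Fin (q s) := fun s => (hq s).some
  let φ : PP A.sym A.ar N := polF A B.dom e
  -- positions
  let pL : ∀ s, Fin (B.ar s) → (B.dom → A.dom) → Fin (B.ar s * N + M s) := fun s i x =>
    Fin.castAdd (M s) (finProdFinEquiv (i, e x))
  let pR : ∀ s, (R s → A.dom) → Fin (B.ar s * N + M s) := fun s y => Fin.natAdd (B.ar s * N) (eM s y)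
  let ψ : ∀ s : B.sym, PP A.sym A.ar (B.ar s * N) := fun s =>
    exN (M s) (.and (polF A (R s) (pR s))
      (conj (Fin (B.ar s) × (B.dom → A.dom)) (fun z => .eq (pL s z.1 z.2) (pR s (fun r => z.2 (r.1 z.1))))))
  have hψ : ∀ (s : B.sym) (x : Fin (B.ar s) → Fin N → A.dom), (ψ s).Holds A (concat x) ↔
      ∃ g : (R s → A.dom) → A.dom, IsPol A (R s) g ∧
        ∀ i (z : B.dom → A.dom), x i (e z) = g (fun r => z (r.1 i)) := by
    intro s x
    change (exN (M s) _).Holds A (concat x) ↔ _
    rw [holds_exN]
    have hL : ∀ (w : Fin (M s) → A.dom) i z, (Fin.append (concat x) w) (pL s i z) = x i (e z) := by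
      intro w i z
      simp only [pL]
      rw [Fin.append_left]
      simp [concat]
    have hR : ∀ (w : Fin (M s) → A.dom) y, (Fin.append (concat x) w) (pR s y) = w (eM s y) := by
      intro w y
      simp only [pR]
      rw [Fin.append_right]
    constructor
    · rintro ⟨w, h1, h2⟩
      rw [holds_polF] at h1
      rw [holds_conj] at h2
      refine ⟨fun y => w (eM s y), ?_, ?_⟩
      · simpa only [hR] using h1
      · intro i z
        have h3 : (Fin.append (concat x) w) (pL s i z) = (Fin.append (concat x) w) (pR s _) := h2 (i, z)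
        rw [hL, hR] at h3
        exact h3
    · rintro ⟨g, h1, h2⟩
      refine ⟨fun j => g ((eM s).symm j), ?_, ?_⟩
      · rw [holds_polF]
        simpa only [hR, Equiv.symm_apply_apply] using h1
      · rw [holds_conj]
        rintro ⟨i, z⟩
        change (Fin.append (concat x) _) (pL s i z) = (Fin.append (concat x) _) (pR s _)
        rw [hL, hR, h2, Equiv.symm_apply_apply]
  have hφ : ∀ x : Fin N → A.dom, φ.Holds A x ↔ IsPol A B.dom (fun y => x (e y)) := fun x =>
    holds_polF A B.dom e x
  -- polymorphisms of arity m from points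
  let toP : {x : Fin N → A.dom // φ.Holds A x} → Pol A m := fun c =>
    ⟨fun x => c.1 (e (fun b => x (eB b))), by
      intro s x hx
      exact (hφ c.1).mp c.2 s (fun b => x (eB b)) (fun b => hx (eB b))⟩
  refine ⟨N, φ, ψ, ⟨fun c => (ξ m (toP c)).1 eB.symm, ?_⟩, ⟨fun b => ⟨fun j => (e.symm j) b, ?_⟩, ?_⟩⟩
  · intro s x hx
    have hx' := (hψ s (fun i => (x i).1)).mp hx
    obtain ⟨g, hg, hgx⟩ := hx'
    let g' : Pol A (q s) := ⟨fun y => g (fun r => y (eR s r)), by
      intro s' y hy
      exact hg s' (fun r => y (eR s r)) (fun r => hy _)⟩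
    have hmin : ∀ i, toP (x i) = g'.minor (fun j => eB (((eR s).symm j).1 i)) := by
      intro i
      apply Subtype.ext
      funext z
      change (x i).1 (e (fun b => z (eB b))) = g (fun r => z (eB (((eR s).symm (eR s r)).1 i)))
      rw [hgx i]
      simp only [Equiv.symm_apply_apply]
    have hkey : ∀ i, (ξ m (toP (x i))).1 eB.symm = (ξ (q s) g').1 (fun j => ((eR s).symm j).1 i) := by
      intro i
      rw [hmin i, hξ]
      change (ξ (q s) g').1 (fun j => eB.symm (eB (((eR s).symm j).1 i))) = _
      simp only [Equiv.symm_apply_apply]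
    simp only [hkey]
    exact (ξ (q s) g').2 s (fun j => ((eR s).symm j).1) (fun j => ((eR s).symm j).2)
  · rw [hφ]
    intro s x hx
    simp only [Equiv.symm_apply_apply]
    exact hx b
  · intro s r hr
    change (ψ s).Holds A (concat (fun i => fun j => (e.symm j) (r i)))
    rw [hψ]
    refine ⟨fun y => y ⟨r, hr⟩, fun s' x hx => hx _, fun i z => ?_⟩
    rw [Equiv.symm_apply_apply]

end Pool.Agent.H796R3
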