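import Mathlib
import Pool.Agent.H796R3.Defs

set_option autoImplicit false

namespace Pool.Agent.H796R3

theorem condM_of_minorMap (A B : FStr) (h : MinorMap A B) (hA : CondM A) : CondM B := by
  obtain ⟨ξ, hξ⟩ := h
  obtain ⟨f, hf⟩ := hA
  -- f(x,y,y) = f(x,x,x) and f(y,y,x) = f(x,x,x) as minors of arity 2
  have e1 : f.minor (![0, 1, 1] : Fin 3 → Fin 2) = f.minor (![0, 0, 0] : Fin 3 → Fin 2) := by
    apply Subtype.ext
    funext x
    change f.1 _ = f.1 _
    have h1 : (fun i => x ((![0, 1, 1] : Fin 3 → Fin 2) i)) = ![x 0, x 1, x 1] := by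
      funext i; fin_cases i <;> rfl
    have h2 : (fun i => x ((![0, 0, 0] : Fin 3 → Fin 2) i)) = ![x 0, x 0, x 0] := by
      funext i; fin_cases i <;> rfl
    rw [h1, h2]
    exact (hf (x 0) (x 1)).1
  have e2 : f.minor (![1, 1, 0] : Fin 3 → Fin 2) = f.minor (![0, 0, 0] : Fin 3 → Fin 2) := by
    apply Subtype.ext
    funext x
    change f.1 _ = f.1 _
    have h1 : (fun i => x ((![1, 1, 0] : Fin 3 → Fin 2) i)) = ![x 1, x 1, x 0] := by
      funext i; fin_cases i <;> rfl
    have h2 : (fun i => x ((![0, 0, 0] : Fin 3 → Fin 2) i)) = ![x 0, x 0, x 0] := by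
      funext i; fin_cases i <;> rfl
    rw [h1, h2]
    exact (hf (x 0) (x 1)).2
  have g1 := congrArg (ξ 2) e1
  have g2 := congrArg (ξ 2) e2
  rw [hξ, hξ] at g1 g2
  refine ⟨ξ 3 f, fun x y => ⟨?_, ?_⟩⟩
  · have h3 := congrFun (congrArg Subtype.val g1) ![x, y]
    change (ξ 3 f).1 _ = (ξ 3 f).1 _ at h3
    have h1 : (fun i => (![x, y] : Fin 2 → B.dom) ((![0, 1, 1] : Fin 3 → Fin 2) i)) = ![x, y, y] := by
      funext i; fin_cases i <;> rfl
    have h2 : (fun i => (![x, y] : Fin 2 → B.dom) ((![0, 0, 0] : Fin 3 → Fin 2) i)) = ![x, x, x] := by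
      funext i; fin_cases i <;> rfl
    rw [h1, h2] at h3
    exact h3
  · have h3 := congrFun (congrArg Subtype.val g2) ![x, y]
    change (ξ 3 f).1 _ = (ξ 3 f).1 _ at h3
    have h1 : (fun i => (![x, y] : Fin 2 → B.dom) ((![1, 1, 0] : Fin 3 → Fin 2) i)) = ![y, y, x] := by
      funext i; fin_cases i <;> rfl
    have h2 : (fun i => (![x, y] : Fin 2 → B.dom) ((![0, 0, 0] : Fin 3 → Fin 2) i)) = ![x, x, x] := by
      funext i; fin_cases i <;> rfl
    rw [h1, h2] at h3
    exact h3

theorem condS_of_minorMap (A B : FStr) (h : MinorMap A B) (hA : CondS A) : CondS B := by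
  obtain ⟨ξ, hξ⟩ := h
  intro n hn
  obtain ⟨f, hf1, hf2⟩ := hA n hn
  refine ⟨ξ (n + 1) f, ?_, ?_⟩
  · intro σ x y
    -- permute the last n variables
    let π : Fin (n + 1) → Fin (n + 1) := Fin.cons 0 (fun i => (σ i).succ)
    have e : f.minor π = f.minor id := by
      apply Subtype.ext
      funext z
      change f.1 _ = f.1 _
      have h1 : (fun i => z (π i)) = Fin.cons (z 0) ((fun i => z (Fin.succ i)) ∘ σ) := by
        funext i
        refine Fin.cases ?_ (fun i => ?_) i
        · simp [π]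
        · simp [π]
      have h2 : z = Fin.cons (z 0) (fun i => z (Fin.succ i)) := by
        funext i
        refine Fin.cases ?_ (fun i => ?_) i
        · simp
        · simp
      rw [h1]
      have h3 := hf1 σ (z 0) (fun i => z (Fin.succ i))
      rw [h3, ← h2]
    have g := congrArg (ξ (n + 1)) e
    rw [hξ, hξ] at g
    have h3 := congrFun (congrArg Subtype.val g) (Fin.cons x y)
    change (ξ (n + 1) f).1 _ = (ξ (n + 1) f).1 _ at h3
    have h1 : (fun i => (Fin.cons x y : Fin (n + 1) → B.dom) (π i)) = Fin.cons x (y ∘ σ) := by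
      funext i
      refine Fin.cases ?_ (fun i => ?_) i
      · simp [π]
      · simp [π]
    rw [h1] at h3
    exact h3
  · intro x₁ x₂ y
    let π₁ : Fin (n + 1) → Fin 3 := Fin.cons 0 (fun _ => 2)
    let π₂ : Fin (n + 1) → Fin 3 := Fin.cons 1 (fun _ => 2)
    have e : f.minor π₁ = f.minor π₂ := by
      apply Subtype.ext
      funext z
      change f.1 _ = f.1 _
      have h1 : (fun i => z (π₁ i)) = Fin.cons (z 0) (fun _ => z 2) := by
        funext i
        refine Fin.cases ?_ (fun i => ?_) i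
        · simp [π₁]
        · simp [π₁]
      have h2 : (fun i => z (π₂ i)) = Fin.cons (z 1) (fun _ => z 2) := by
        funext i
        refine Fin.cases ?_ (fun i => ?_) i
        · simp [π₂]
        · simp [π₂]
      rw [h1, h2]
      exact hf2 _ _ _
    have g := congrArg (ξ 3) e
    rw [hξ, hξ] at g
    have h3 := congrFun (congrArg Subtype.val g) ![x₁, x₂, y]
    change (ξ (n + 1) f).1 _ = (ξ (n + 1) f).1 _ at h3
    have h1 : (fun i => (![x₁, x₂, y] : Fin 3 → B.dom) (π₁ i)) = Fin.cons x₁ (fun _ => y) := by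
      funext i
      refine Fin.cases ?_ (fun i => ?_) i
      · simp [π₁]
      · simp [π₁]
    have h2 : (fun i => (![x₁, x₂, y] : Fin 3 → B.dom) (π₂ i)) = Fin.cons x₂ (fun _ => y) := by
      funext i
      refine Fin.cases ?_ (fun i => ?_) i
      · simp [π₂]
      · simp [π₂]
    rw [h1, h2] at h3
    exact h3

/-- an operation which commutes with injections is compatible with the relations of `permStr` -/
theorem condM_permStr (G : Type) [Group G] [Finite G] (X : Type) [Finite X] [MulAction G X] :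
    CondM (permStr G X) := by
  classical
  let F : (Fin 3 → X) → X := fun v => if v 0 = v 1 then v 2 else v 0
  refine ⟨⟨F, ?_⟩, fun (x y : X) => ⟨?_, ?_⟩⟩
  · intro (g : G) (x : Fin 3 → Fin 2 → X) hx
    have hx' : ∀ i, x i (1 : Fin 2) = g • x i (0 : Fin 2) := hx
    change F (fun i => x i (1 : Fin 2)) = g • F (fun i => x i (0 : Fin 2))
    simp only [F, hx']
    by_cases h : x 0 (0 : Fin 2) = x 1 (0 : Fin 2)
    · rw [if_pos h, if_pos (by rw [h])]
    · rw [if_neg h, if_neg (fun h' => h (smul_left_cancel g h'))]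
  · change F ![x, y, y] = F ![x, x, x]
    by_cases h : x = y
    · subst h; rfl
    · have h1 : F ![x, y, y] = x := if_neg h
      have h2 : F ![x, x, x] = x := if_pos rfl
      rw [h1, h2]
  · change F ![y, y, x] = F ![x, x, x]
    have h1 : F ![y, y, x] = x := if_pos rfl
    have h2 : F ![x, x, x] = x := if_pos rfl
    rw [h1, h2]

theorem condS_permStr (G : Type) [Group G] [Finite G] (X : Type) [Finite X] [MulAction G X] :
    CondS (permStr G X) := by
  classical
  intro n hn
  let F : (Fin (n + 1) → X) → X := fun v =>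
    if ∀ i j : Fin n, v i.succ = v j.succ then v (Fin.succ ⟨0, hn⟩) else v 0
  refine ⟨⟨F, ?_⟩, ?_, ?_⟩
  · intro (g : G) (x : Fin (n + 1) → Fin 2 → X) hx
    have hx' : ∀ i, x i (1 : Fin 2) = g • x i (0 : Fin 2) := hx
    change F (fun i => x i (1 : Fin 2)) = g • F (fun i => x i (0 : Fin 2))
    simp only [F, hx']
    by_cases h : ∀ i j : Fin n, x i.succ (0 : Fin 2) = x j.succ (0 : Fin 2)
    · rw [if_pos h, if_pos (fun i j => by rw [h i j])]
    · rw [if_neg h, if_neg (fun h' => h (fun i j => smul_left_cancel g (h' i j)))]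
  · intro σ (x : X) (y : Fin n → X)
    change F (Fin.cons x (y ∘ σ)) = F (Fin.cons x y)
    by_cases h : ∀ i j : Fin n, y i = y j
    · have h1 : F (Fin.cons x (y ∘ σ)) = y (σ ⟨0, hn⟩) := if_pos (fun i j => h _ _)
      have h2 : F (Fin.cons x y) = y ⟨0, hn⟩ := if_pos (fun i j => h _ _)
      rw [h1, h2]
      exact h _ _
    · have h1 : F (Fin.cons x (y ∘ σ)) = x := if_neg (fun h' => h (fun i j => by
        have := h' (σ.symm i) (σ.symm j)
        simpa using this))
      have h2 : F (Fin.cons x y) = x := if_neg (fun h' => h (fun i j => h' i j))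
      rw [h1, h2]
  · intro (x₁ : X) (x₂ : X) (y : X)
    change F (Fin.cons x₁ (fun _ => y)) = F (Fin.cons x₂ (fun _ => y))
    have h1 : F (Fin.cons x₁ (fun _ => y)) = y := if_pos (fun i j => rfl)
    have h2 : F (Fin.cons x₂ (fun _ => y)) = y := if_pos (fun i j => rfl)
    rw [h1, h2]

theorem condM_P1 : CondM P1 := by
  let F : (Fin 3 → Fin 2) → Fin 2 := fun v => if v 0 = v 1 then v 2 else v 0
  refine ⟨⟨F, ?_⟩, fun (x y : Fin 2) => ⟨?_, ?_⟩⟩
  · intro (s : Unit) (x : Fin 3 → Fin 2 → Fin 2) hx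
    have hx' : ∀ i, x i (0 : Fin 2) < x i (1 : Fin 2) := hx
    change F (fun i => x i (0 : Fin 2)) < F (fun i => x i (1 : Fin 2))
    have h0 : ∀ i, x i (0 : Fin 2) = 0 := by
      intro i
      have h1 : (x i (0 : Fin 2) : Fin 2) < x i (1 : Fin 2) := hx' i
      generalize x i (0 : Fin 2) = a at h1 ⊢
      generalize x i (1 : Fin 2) = b at h1
      revert a b
      decide
    have h1 : ∀ i, x i (1 : Fin 2) = 1 := by
      intro i
      have h1 : (x i (0 : Fin 2) : Fin 2) < x i (1 : Fin 2) := hx' i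
      generalize x i (0 : Fin 2) = a at h1
      generalize x i (1 : Fin 2) = b at h1 ⊢
      revert a b
      decide
    simp only [F, h0, h1]
    decide
  · change F ![x, y, y] = F ![x, x, x]
    by_cases h : x = y
    · subst h; rfl
    · have h1 : F ![x, y, y] = x := if_neg h
      have h2 : F ![x, x, x] = x := if_pos rfl
      rw [h1, h2]
  · change F ![y, y, x] = F ![x, x, x]
    have h1 : F ![y, y, x] = x := if_pos rfl
    have h2 : F ![x, x, x] = x := if_pos rfl
    rw [h1, h2]

theorem condS_P1 : CondS P1 := by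
  classical
  intro n hn
  let F : (Fin (n + 1) → Fin 2) → Fin 2 := fun v =>
    if ∀ i j : Fin n, v i.succ = v j.succ then v (Fin.succ ⟨0, hn⟩) else v 0
  refine ⟨⟨F, ?_⟩, ?_, ?_⟩
  · intro (s : Unit) (x : Fin (n + 1) → Fin 2 → Fin 2) hx
    have hx' : ∀ i, x i (0 : Fin 2) < x i (1 : Fin 2) := hx
    change F (fun i => x i (0 : Fin 2)) < F (fun i => x i (1 : Fin 2))
    have h0 : ∀ i, x i (0 : Fin 2) = 0 := by
      intro i
      have h1 : (x i (0 : Fin 2) : Fin 2) < x i (1 : Fin 2) := hx' i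
      generalize x i (0 : Fin 2) = a at h1 ⊢
      generalize x i (1 : Fin 2) = b at h1
      revert a b
      decide
    have h1 : ∀ i, x i (1 : Fin 2) = 1 := by
      intro i
      have h1 : (x i (0 : Fin 2) : Fin 2) < x i (1 : Fin 2) := hx' i
      generalize x i (0 : Fin 2) = a at h1
      generalize x i (1 : Fin 2) = b at h1 ⊢
      revert a b
      decide
    simp only [F, h0, h1]
    simp
  · intro σ (x : Fin 2) (y : Fin n → Fin 2)
    change F (Fin.cons x (y ∘ σ)) = F (Fin.cons x y)
    by_cases h : ∀ i j : Fin n, y i = y j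
    · have h1 : F (Fin.cons x (y ∘ σ)) = y (σ ⟨0, hn⟩) := if_pos (fun i j => h _ _)
      have h2 : F (Fin.cons x y) = y ⟨0, hn⟩ := if_pos (fun i j => h _ _)
      rw [h1, h2]
      exact h _ _
    · have h1 : F (Fin.cons x (y ∘ σ)) = x := if_neg (fun h' => h (fun i j => by
        have := h' (σ.symm i) (σ.symm j)
        simpa using this))
      have h2 : F (Fin.cons x y) = x := if_neg (fun h' => h (fun i j => h' i j))
      rw [h1, h2]
  · intro (x₁ : Fin 2) (x₂ : Fin 2) (y : Fin 2)
    change F (Fin.cons x₁ (fun _ => y)) = F (Fin.cons x₂ (fun _ => y))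
    have h1 : F (Fin.cons x₁ (fun _ => y)) = y := if_pos (fun i j => rfl)
    have h2 : F (Fin.cons x₂ (fun _ => y)) = y := if_pos (fun i j => rfl)
    rw [h1, h2]

end Pool.Agent.H796R3
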