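import Mathlib
import Pool.Agent.H796R3.Defs

set_option autoImplicit false

namespace Pool.Agent.H796R3

/-- trivial action of the trivial group -/
def trivAct (X : Type) : MulAction Unit X where
  smul _ x := x
  one_smul _ := rfl
  mul_smul _ _ _ := rfl

theorem small_case (A : FStr) (h : ∃ f : Pol A 1, ∀ x y : A.dom, f.1 (fun _ => x) = f.1 (fun _ => y)) : ∃ (G : Type) (_ : Group G) (_ : Finite G) (X : Type) (_ : Finite X) (_ : MulAction G X), MinorMap A (permStr G X) ∧ MinorMap (permStr G X) A := by
  classical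
  obtain ⟨f, hf⟩ := h
  by_cases h0 : Nonempty (Pol A 0)
  · obtain ⟨f0⟩ := h0
    refine ⟨Unit, inferInstance, inferInstance, Unit, inferInstance, trivAct Unit, ?_, ?_⟩
    · refine ⟨fun n _ => ⟨fun _ => (), fun _ _ _ => rfl⟩, fun n m π f => rfl⟩
    · refine ⟨fun n _ => f0.minor Fin.elim0, fun n m π f => ?_⟩
      apply Subtype.ext
      funext x
      exact congrArg f0.1 (funext fun i => i.elim0)
  · refine ⟨Unit, inferInstance, inferInstance, Empty, inferInstance, trivAct Empty, ?_, ?_⟩
    · have hne : ∀ n, Pol A n → n ≠ 0 := by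
        rintro n g rfl
        exact h0 ⟨g⟩
      refine ⟨fun n g => ⟨fun x => x ⟨0, Nat.pos_of_ne_zero (hne n g)⟩, ?_⟩, fun n m π f => ?_⟩
      · intro s x hx
        exact hx _
      · apply Subtype.ext
        funext x
        exact (x ⟨0, Nat.pos_of_ne_zero (hne m (f.minor π))⟩ : Empty).elim
    · letI : MulAction Unit Empty := trivAct Empty
      have hne : ∀ n, Pol (permStr Unit Empty) n → n ≠ 0 := by
        rintro n g rfl
        exact (g.1 Fin.elim0 : Empty).elim
      refine ⟨fun n g => f.minor (fun _ => ⟨0, Nat.pos_of_ne_zero (hne n g)⟩), fun n m π g => ?_⟩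
      apply Subtype.ext
      funext x
      exact hf _ _

end Pool.Agent.H796R3
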