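import Pool.Agent.H796R3.Conc
import Pool.Agent.H796R3.TaskB
import Pool.Agent.H796R3.TaskC
import Pool.Agent.H796R3.TaskE
import Pool.Agent.H796R3.TaskA

/-!
# The minion `N` is the polymorphism minion of a permutation group or of `P₁`
-/

set_option autoImplicit false

namespace Pool.Agent.H796R3

/-! ## polymorphisms of permutation groups -/

section
variable {G : Type} [Group G] [Finite G] {X : Type} [Finite X] [MulAction G X]

/-- a polymorphism of a permutation group as an operation on `X` -/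
def app {n : ℕ} (f : Pol (permStr G X) n) (x : Fin n → X) : X := f.1 x

theorem app_smul {n : ℕ} (f : Pol (permStr G X) n) (g : G) (x : Fin n → X) :
    app f (fun i => g • x i) = g • app f x :=
  f.2 g (fun i => (![x i, g • x i] : Fin 2 → X)) (fun _ => rfl)

/-- equivariant operations are polymorphisms -/
def mkPol {n : ℕ} (F : (Fin n → X) → X) (h : ∀ (g : G) (x : Fin n → X),
    F (fun i => g • x i) = g • F x) : Pol (permStr G X) n :=
  ⟨F, by
    intro (g : G) (x : Fin n → Fin 2 → X) hx
    have hx' : ∀ i, x i (1 : Fin 2) = g • x i (0 : Fin 2) := hx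
    show F (fun i => x i (1 : Fin 2)) = g • F (fun i => x i (0 : Fin 2))
    rw [← h]
    congr 1
    funext i
    exact hx' i⟩

end

variable {S : ℕ → Type} {L : Type} (Q : L → Alg S)

/-- the product of the automorphism groups -/
def autG : Subgroup (∀ l, Equiv.Perm (Q l).car) where
  carrier := {σ | ∀ (l : L) (n : ℕ) (s : S n) (x : Fin n → (Q l).car),
    σ l ((Q l).op s x) = (Q l).op s (fun i => σ l (x i))}
  mul_mem' := by
    intro σ τ hσ hτ l n s x
    show σ l (τ l _) = (Q l).op s (fun i => σ l (τ l (x i)))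
    rw [hτ, hσ]
  one_mem' := fun l n s x => rfl
  inv_mem' := by
    intro σ hσ l n s x
    show (σ l).symm _ = (Q l).op s (fun i => (σ l).symm (x i))
    apply (σ l).injective
    rw [hσ, Equiv.apply_symm_apply]
    congr 1
    funext i
    rw [Equiv.apply_symm_apply]

/-- the domain of the permutation group -/
def autX : Type := ∀ l, (Q l).car

instance [Finite L] : Finite (autX Q) := by
  unfold autX
  infer_instance

instance [Finite L] : Finite (autG Q) := by
  infer_instance

/-- the action -/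
instance autAct : MulAction (autG Q) (autX Q) where
  smul g x := fun l => g.1 l (x l)
  one_smul _ := rfl
  mul_smul _ _ _ := rfl

theorem autAct_def (g : autG Q) (x : autX Q) (l : L) : (g • x) l = g.1 l (x l) := rfl

/-- an automorphism as an isomorphism -/
def autIso (g : autG Q) (l : L) : AIso (Q l) (Q l) := ⟨g.1 l, fun s x => g.2 l _ s x⟩

/-- an automorphism of one component -/
noncomputable def autOne (l : L) (g : AIso (Q l) (Q l)) : autG Q := by
  classical
  exact ⟨fun k => if h : l = k then h ▸ g.e else Equiv.refl _, by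
    intro k n s x
    by_cases h : l = k
    · subst h
      simp only [dif_pos]
      exact g.map s x
    · simp only [dif_neg h]
      rfl⟩

theorem autOne_same (l : L) (g : AIso (Q l) (Q l)) : (autOne Q l g).1 l = g.e := by
  unfold autOne
  simp

theorem autOne_other (l k : L) (g : AIso (Q l) (Q l)) (h : l ≠ k) :
    (autOne Q l g).1 k = Equiv.refl _ := by
  unfold autOne
  simp [h]

/-- change one coordinate -/
noncomputable def upd (x : autX Q) (l : L) (c : (Q l).car) : autX Q := by
  classical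
  exact Function.update x l c

theorem upd_same (x : autX Q) (l : L) (c : (Q l).car) : upd Q x l c l = c := by
  unfold upd
  simp

theorem upd_other (x : autX Q) (l k : L) (c : (Q l).car) (h : k ≠ l) : upd Q x l c k = x k := by
  unfold upd
  simp [h]

theorem autOne_upd (x : autX Q) (l : L) (g : AIso (Q l) (Q l)) (c : (Q l).car) :
    (autOne Q l g) • (upd Q x l c) = upd Q x l (g.e c) := by
  funext k
  rw [autAct_def]
  by_cases h : k = l
  · subst h
    rw [autOne_same, upd_same, upd_same]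
  · rw [autOne_other Q l k g (fun h' => h h'.symm), upd_other Q x l k _ h, upd_other Q x l k _ h]
    rfl

/-- `N → Pol (permStr G X)` -/
theorem nnToPerm [Finite L] :
    ∃ F : ∀ n, NN Q (Fin n) → Pol (permStr (autG Q) (autX Q)) n,
      ∀ (n k : ℕ) (π : Fin n → Fin k) (D : NN Q (Fin n)), F k (D.map π) = (F n D).minor π := by
  refine ⟨fun n D => mkPol (fun x l => D.f l (fun i => x i l)) ?_, fun n k π D => rfl⟩
  intro g x
  funext l
  exact D.eqv l (autIso Q g l) (fun i => x i l)

/-- `Pol (permStr G X) → N` when `G` has no fixed point -/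
theorem permToNN [Finite L] (hQ : ∀ l, Nonempty (Q l).car)
    (hfix : ¬ ∃ x : autX Q, ∀ g : autG Q, g • x = x) :
    ∃ E : ∀ n, Pol (permStr (autG Q) (autX Q)) n → NN Q (Fin n),
      ∀ (n k : ℕ) (π : Fin n → Fin k) (f : Pol (permStr (autG Q) (autX Q)) n),
        E k (f.minor π) = (E n f).map π := by
  have hX : Nonempty (autX Q) := ⟨fun l => (hQ l).some⟩
  obtain ⟨x0⟩ := hX
  obtain ⟨A₁, hne, -, ξ, hξ⟩ := core_red (permStr (autG Q) (autX Q)) (by
    rintro ⟨f, hf⟩
    refine hfix ⟨app f (fun _ => x0), fun g => ?_⟩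
    rw [← app_smul]
    exact hf _ _)
  obtain ⟨b, hb1, hb2⟩ := boolPart A₁ hne
  refine ⟨fun n f => ⟨fun l ψ => app f (fun i => upd Q x0 l (ψ i)) l, b n (ξ n f), ?_,
    fun c => hb1 n _ c⟩, ?_⟩
  · intro l g ψ
    have h2 := app_smul f (autOne Q l g) (fun i => upd Q x0 l (ψ i))
    have h3 := congrFun h2 l
    rw [autAct_def, autOne_same] at h3
    have h4 : (fun i => upd Q x0 l (g.e (ψ i))) =
        (fun i => autOne Q l g • upd Q x0 l (ψ i)) :=
      funext (fun i => (autOne_upd Q x0 l g (ψ i)).symm)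
    show app f (fun i => upd Q x0 l (g.e (ψ i))) l = _
    rw [h4, h3]
  · intro n k π f
    apply NN.ext
    · rfl
    · funext ψ
      have h1 : ξ k (f.minor π) = (ξ n f).minor π := Subtype.ext (hξ n k π f)
      show b k (ξ k (f.minor π)) ψ = b n (ξ n f) (fun i => ψ (π i))
      rw [h1]
      exact hb2 n k π (ξ n f) ψ

theorem fin2_lt {a b : Fin 2} (h : a < b) : a = 0 ∧ b = 1 := by
  revert a b
  decide

/-- `N → Pol P₁` -/
theorem nnToP1 : ∃ F : ∀ n, NN Q (Fin n) → Pol P1 n,
    ∀ (n k : ℕ) (π : Fin n → Fin k) (D : NN Q (Fin n)), F k (D.map π) = (F n D).minor π := by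
  refine ⟨fun n D => ⟨D.b, ?_⟩, fun n k π D => rfl⟩
  intro (s : Unit) (x : Fin n → Fin 2 → Fin 2) hx
  have hx' : ∀ i, x i (0 : Fin 2) < x i (1 : Fin 2) := hx
  show D.b (fun i => x i (0 : Fin 2)) < D.b (fun i => x i (1 : Fin 2))
  have e0 : (fun i => x i (0 : Fin 2)) = fun _ => 0 := funext (fun i => (fin2_lt (hx' i)).1)
  have e1 : (fun i => x i (1 : Fin 2)) = fun _ => 1 := funext (fun i => (fin2_lt (hx' i)).2)
  rw [e0, e1, D.idem, D.idem]
  decide

/-- `Pol P₁ → N` when `G` has a fixed point -/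
theorem p1ToNN (c : autX Q) (hc : ∀ g : autG Q, g • c = c) :
    ∃ E : ∀ n, Pol P1 n → NN Q (Fin n),
      ∀ (n k : ℕ) (π : Fin n → Fin k) (f : Pol P1 n), E k (f.minor π) = (E n f).map π := by
  refine ⟨fun n f => ⟨fun l _ => c l, f.1, ?_, ?_⟩, fun n k π f => rfl⟩
  · intro l g ψ
    have h := congrFun (hc (autOne Q l g)) l
    rw [autAct_def, autOne_same] at h
    exact h.symm
  · intro d
    have h : @LT.lt (Fin 2) _ (f.1 (fun _ => (0 : Fin 2))) (f.1 (fun _ => (1 : Fin 2))) :=
      f.2 () (fun _ => (![0, 1] : Fin 2 → Fin 2)) (fun _ => (by decide : (0 : Fin 2) < 1))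
    obtain ⟨h0, h1⟩ := fin2_lt h
    fin_cases d
    · exact h0
    · exact h1

/-- The conclusion for a class of structures: permutation group or `P₁`. -/
theorem nn_char [Finite L] (hQ : ∀ l, Nonempty (Q l).car) :
    ∃ P : FStr, ((∃ (G : Type) (_ : Group G) (_ : Finite G) (X : Type) (_ : Finite X)
      (_ : MulAction G X), P = permStr G X) ∨ P = P1) ∧
      (∃ F : ∀ n, NN Q (Fin n) → Pol P n,
        ∀ (n k : ℕ) (π : Fin n → Fin k) (D : NN Q (Fin n)), F k (D.map π) = (F n D).minor π) ∧
      (∃ E : ∀ n, Pol P n → NN Q (Fin n),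
        ∀ (n k : ℕ) (π : Fin n → Fin k) (f : Pol P n), E k (f.minor π) = (E n f).map π) := by
  by_cases hfix : ∃ x : autX Q, ∀ g : autG Q, g • x = x
  · obtain ⟨c, hc⟩ := hfix
    exact ⟨P1, Or.inr rfl, nnToP1 Q, p1ToNN Q c hc⟩
  · exact ⟨permStr (autG Q) (autX Q), Or.inl ⟨autG Q, inferInstance, inferInstance, autX Q,
      inferInstance, inferInstance, rfl⟩, nnToPerm Q, permToNN Q hQ hfix⟩

/-! ## the hypotheses on the core -/

theorem hyp_of_cond (A A₁ : FStr) (ξ : ∀ n, Pol A n → PolId A₁ n)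
    (hξ : ∀ (n m : ℕ) (π : Fin n → Fin m) (f : Pol A n),
      (ξ m (f.minor π)).1 = ((ξ n f).1).minor π) (hM : CondM A) (hS : CondS A) :
    ∃ (m : PolId A₁ 3) (sy : ∀ n, PolId A₁ (n + 1)), Hyp m sy := by
  have tr : ∀ {n k : ℕ} (f : Pol A n) (π₁ π₂ : Fin n → Fin k), f.minor π₁ = f.minor π₂ →
      ∀ x : Fin k → A₁.dom, (ξ n f).1.1 (fun i => x (π₁ i)) = (ξ n f).1.1 (fun i => x (π₂ i)) := by
    intro n k f π₁ π₂ h x
    have h1 : ((ξ n f).1).minor π₁ = ((ξ n f).1).minor π₂ := by
      rw [← hξ, ← hξ, h]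
    exact congrFun (congrArg Subtype.val h1) x
  have hsy : ∀ n : ℕ, ∃ g : PolId A₁ (n + 1), 1 ≤ n →
      (∀ (σ : Equiv.Perm (Fin n)) (x : A₁.dom) (y : Fin n → A₁.dom),
        g.1.1 (Fin.cons x (y ∘ σ)) = g.1.1 (Fin.cons x y)) ∧
      ∀ x y : A₁.dom, g.1.1 (Fin.cons x (fun _ => y)) = y := by
    intro n
    by_cases hn : 1 ≤ n
    · obtain ⟨f, hf1, hf2⟩ := hS n hn
      refine ⟨ξ (n + 1) f, fun _ => ⟨?_, ?_⟩⟩
      · intro σ x y
        let π : Fin (n + 1) → Fin (n + 1) := Fin.cons 0 (fun i => (σ i).succ)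
        have e : f.minor π = f.minor id := by
          apply Subtype.ext
          funext z
          change f.1 _ = f.1 _
          have h1 : (fun i => z (π i)) = Fin.cons (z 0) ((fun i => z (Fin.succ i)) ∘ σ) := by
            funext i
            refine Fin.cases ?_ (fun i => ?_) i
            · simp [π]
            · simp [π]
          have h2 : z = Fin.cons (z 0) (fun i => z (Fin.succ i)) := by
            funext i
            refine Fin.cases ?_ (fun i => ?_) i
            · simp
            · simp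
          rw [h1]
          have h3 := hf1 σ (z 0) (fun i => z (Fin.succ i))
          rw [h3, ← h2]
        have h3 := tr f π id e (Fin.cons x y)
        have h1 : (fun i => (Fin.cons x y : Fin (n + 1) → A₁.dom) (π i)) =
            Fin.cons x (y ∘ σ) := by
          funext i
          refine Fin.cases ?_ (fun i => ?_) i
          · simp [π]
          · simp [π]
        rw [h1] at h3
        exact h3
      · intro x y
        let π₁ : Fin (n + 1) → Fin 2 := Fin.cons 0 (fun _ => 1)
        let π₂ : Fin (n + 1) → Fin 2 := fun _ => 1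
        have e : f.minor π₁ = f.minor π₂ := by
          apply Subtype.ext
          funext z
          change f.1 _ = f.1 _
          have h1 : (fun i => z (π₁ i)) = Fin.cons (z 0) (fun _ => z 1) := by
            funext i
            refine Fin.cases ?_ (fun i => ?_) i
            · simp [π₁]
            · simp [π₁]
          have h2 : (fun i => z (π₂ i)) = Fin.cons (z 1) (fun _ => z 1) := by
            funext i
            refine Fin.cases ?_ (fun i => ?_) i
            · simp [π₂]
            · simp [π₂]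
          rw [h1, h2]
          exact hf2 _ _ _
        have h3 := tr f π₁ π₂ e ![x, y]
        have h1 : (fun i => (![x, y] : Fin 2 → A₁.dom) (π₁ i)) = Fin.cons x (fun _ => y) := by
          funext i
          refine Fin.cases ?_ (fun i => ?_) i
          · simp [π₁]
          · simp [π₁]
        have h2 : (fun i => (![x, y] : Fin 2 → A₁.dom) (π₂ i)) = fun _ => y := by
          funext i
          simp [π₂]
        rw [h1, h2] at h3
        exact h3.trans ((ξ (n + 1) f).2 y)
    · refine ⟨⟨⟨fun x => x 0, fun s x hx => hx 0⟩, fun x => rfl⟩, fun h => absurd h hn⟩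
  choose sy hsy using hsy
  obtain ⟨f, hf⟩ := hM
  have e1 : f.minor (![0, 1, 1] : Fin 3 → Fin 2) = f.minor (fun _ => 0) := by
    apply Subtype.ext
    funext x
    change f.1 _ = f.1 _
    have h1 : (fun i => x ((![0, 1, 1] : Fin 3 → Fin 2) i)) = ![x 0, x 1, x 1] := by
      funext i
      fin_cases i <;> rfl
    have h2 : (fun _ => x 0) = ![x 0, x 0, x 0] := by
      funext i
      fin_cases i <;> rfl
    rw [h1, h2]
    exact (hf (x 0) (x 1)).1
  have e2 : f.minor (![1, 1, 0] : Fin 3 → Fin 2) = f.minor (fun _ => 0) := by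
    apply Subtype.ext
    funext x
    change f.1 _ = f.1 _
    have h1 : (fun i => x ((![1, 1, 0] : Fin 3 → Fin 2) i)) = ![x 1, x 1, x 0] := by
      funext i
      fin_cases i <;> rfl
    have h2 : (fun _ => x 0) = ![x 0, x 0, x 0] := by
      funext i
      fin_cases i <;> rfl
    rw [h1, h2]
    exact (hf (x 0) (x 1)).2
  refine ⟨ξ 3 f, sy, ⟨fun x y => ?_, fun x y => ?_, fun n σ x y hn => (hsy n hn).1 σ x y,
    fun n x y hn => (hsy n hn).2 x y⟩⟩
  · have h3 := tr f _ _ e1 ![x, y]
    have h1 : (fun i => (![x, y] : Fin 2 → A₁.dom) ((![0, 1, 1] : Fin 3 → Fin 2) i)) =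
        ![x, y, y] := by
      funext i
      fin_cases i <;> rfl
    rw [h1] at h3
    exact h3.trans ((ξ 3 f).2 x)
  · have h3 := tr f _ _ e2 ![x, y]
    have h1 : (fun i => (![x, y] : Fin 2 → A₁.dom) ((![1, 1, 0] : Fin 3 → Fin 2) i)) =
        ![y, y, x] := by
      funext i
      fin_cases i <;> rfl
    rw [h1] at h3
    exact h3.trans ((ξ 3 f).2 x)

/-! ## the theorem -/

theorem main_forward (A : FStr) (hM : CondM A) (hS : CondS A) :
    ∃ P : FStr, ((∃ (G : Type) (_ : Group G) (_ : Finite G) (X : Type) (_ : Finite X)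
      (_ : MulAction G X), P = permStr G X) ∨ P = P1) ∧ MinorMap A P ∧ MinorMap P A := by
  by_cases hc : ∃ f : Pol A 1, ∀ x y : A.dom, f.1 (fun _ => x) = f.1 (fun _ => y)
  · obtain ⟨G, hG, hG', X, hX, hX', h1, h2⟩ := small_case A hc
    exact ⟨permStr G X, Or.inl ⟨G, hG, hG', X, hX, hX', rfl⟩, h1, h2⟩
  · obtain ⟨A₁, hne, ⟨ζ, hζ⟩, ξ, hξ⟩ := core_red A hc
    obtain ⟨m, sy, hyp⟩ := hyp_of_cond A A₁ ξ hξ hM hS
    obtain ⟨P, hP, ⟨F, hF⟩, ⟨E, hE⟩⟩ := nn_char (QQ A₁) (QQ.nonempty A₁)
    obtain ⟨F', hF'⟩ := nnToPol hyp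
    obtain ⟨E', hE'⟩ := polToNN A₁ hne
    refine ⟨P, hP, ⟨fun n f => F n (E' n (ξ n f)), ?_⟩, ⟨fun n f => ζ n (F' n (E n f)), ?_⟩⟩
    · intro n k π f
      have h1 : ξ k (f.minor π) = (ξ n f).minor π := Subtype.ext (hξ n k π f)
      show F k (E' k (ξ k (f.minor π))) = _
      rw [h1, hE', hF]
    · intro n k π f
      show ζ k (F' k (E k (f.minor π))) = _
      rw [hE, hF', hζ]

theorem inter_of_minorMap {A P : FStr} (h1 : MinorMap A P) (h2 : MinorMap P A) : Inter A P :=
  ⟨pp_of_minorMap A P h1, pp_of_minorMap P A h2⟩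

theorem main_char (A : FStr) :
    (CondM A ∧ CondS A) ↔ ((∃ (G : Type) (_ : Group G) (_ : Finite G) (X : Type) (_ : Finite X)
      (_ : MulAction G X), Inter A (permStr G X)) ∨ Inter A P1) := by
  constructor
  · rintro ⟨hM, hS⟩
    obtain ⟨P, hP, h1, h2⟩ := main_forward A hM hS
    rcases hP with ⟨G, hG, hG', X, hX, hX', rfl⟩ | rfl
    · exact Or.inl ⟨G, hG, hG', X, hX, hX', inter_of_minorMap h1 h2⟩
    · exact Or.inr (inter_of_minorMap h1 h2)
  · rintro (⟨G, hG, hG', X, hX, hX', h1, h2⟩ | ⟨h1, h2⟩)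
    · exact ⟨condM_of_minorMap _ _ (minorMap_of_pp _ _ h2) (condM_permStr G X),
        condS_of_minorMap _ _ (minorMap_of_pp _ _ h2) (condS_permStr G X)⟩
    · exact ⟨condM_of_minorMap _ _ (minorMap_of_pp _ _ h2) condM_P1,
        condS_of_minorMap _ _ (minorMap_of_pp _ _ h2) condS_P1⟩

end Pool.Agent.H796R3
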