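import Pool.Agent.H796R3.Phi

/-!
# `Z` is never empty, and `Φ` is natural for all homomorphisms
-/

set_option autoImplicit false

namespace Pool.Agent.H796R3

variable {S : ℕ → Type} {m : S 3} {sy : ∀ n, S (n + 1)}

/-! ## Chinese remainder theorem -/

/-- the full congruence -/
def Cgr.top (R : Alg S) : Cgr R :=
  ⟨fun _ _ => True, ⟨fun _ => trivial, fun _ => trivial, fun _ _ => trivial⟩,
    fun _ _ _ _ => trivial⟩

theorem crt_aux {R : Alg S} (hg : Good m sy R) {ι : Type} (α : ι → Cgr R) (F : Finset ι)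
    (β : Cgr R) (q b : R.car) (h : ∀ i ∈ F, ∃ z, (α i).r q z ∧ β.r z b) :
    ∃ z, (∀ i ∈ F, (α i).r q z) ∧ β.r z b := by
  classical
  obtain ⟨ρ, hρ, z, hz, hb⟩ : ∃ ρ : Cgr R, (∀ x y, ρ.r x y → ∀ i ∈ F, (α i).r x y) ∧
      ∃ z, ρ.r q z ∧ β.r z b := by
    induction F using Finset.induction_on with
    | empty => exact ⟨Cgr.top R, fun x y _ i hi => absurd hi (by simp), b, trivial, β.eqv.refl b⟩
    | insert j F hj ih =>
      obtain ⟨ρ, hρ, hz⟩ := ih (fun i hi => h i (Finset.mem_insert_of_mem hi))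
      obtain ⟨z, hz1, hz2⟩ := D2 hg (α j) ρ β (h j (Finset.mem_insert_self j F)) hz
      refine ⟨(α j).inf ρ, ?_, z, hz1, hz2⟩
      intro x y hxy i hi
      rcases Finset.mem_insert.1 hi with rfl | hi
      · exact hxy.1
      · exact hρ x y hxy.2 i hi
  exact ⟨z, hρ q z hz, hb⟩

theorem crt {R : Alg S} (hg : Good m sy R) {ι : Type} (α : ι → Cgr R) (q : ι → R.car)
    (hc : ∀ i j, ∃ z, (α i).r (q i) z ∧ (α j).r z (q j)) (hR : Nonempty R.car) (F : Finset ι) :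
    ∃ x, ∀ i ∈ F, (α i).r x (q i) := by
  classical
  induction F using Finset.induction_on with
  | empty => exact ⟨hR.some, fun i hi => absurd hi (by simp)⟩
  | insert j F hj ih =>
    obtain ⟨x, hx⟩ := ih
    obtain ⟨z, hz1, hz2⟩ := crt_aux hg α F (α j) x (q j) (fun i hi => by
      obtain ⟨z, h1, h2⟩ := hc i j
      exact ⟨z, (α i).eqv.trans (hx i hi) h1, h2⟩)
    refine ⟨z, fun i hi => ?_⟩
    rcases Finset.mem_insert.1 hi with rfl | hi
    · exact hz2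
    · exact (α i).eqv.trans ((α i).eqv.symm (hz1 i hi)) (hx i hi)

instance Cgr.finite (R : Alg S) : Finite (Cgr R) := by
  refine Finite.of_injective (fun α : Cgr R => α.r) (fun α β h => ?_)
  cases α
  cases β
  simp only at h
  subst h
  rfl

/-! ## `Z` is nonempty -/

/-- `Φ` lies in `Z` for all data on algebras of size less than `n`. -/
def MemBelow (C : Setup S) (n : ℕ) : Prop :=
  ∀ R : Alg S, Nat.card R.car < n → C.V R → ∀ D : NN C.Q R.car, Phi C.sy R D ∈ Z C.sy R D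

theorem two_sub (C : Setup S) {R : Alg S} (hV : C.V R) (ih : MemBelow C (Nat.card R.car))
    (D : NN C.Q R.car) (T₁ T₂ : SubA R) (hT₁ : T₁.Proper) (hT₂ : T₂.Proper)
    (D₁ : NN C.Q T₁.alg.car) (D₂ : NN C.Q T₂.alg.car) (h₁ : D₁.map T₁.val = D)
    (h₂ : D₂.map T₂.val = D) :
    T₁.val (Phi C.sy T₁.alg D₁) = T₂.val (Phi C.sy T₂.alg D₂) := by
  obtain ⟨D₀, hD₀⟩ := NN.inter D T₁.mem T₂.mem D₁ D₂ h₁ h₂
  let T₁₂ : SubA T₁.alg := ⟨fun x => T₂.mem (T₁.val x), fun s x hx => T₂.closed s _ hx⟩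
  let T₂₁ : SubA T₂.alg := ⟨fun x => T₁.mem (T₂.val x), fun s x hx => T₁.closed s _ hx⟩
  let D₁₂ : NN C.Q T₁₂.alg.car := D₀.map (fun x => ⟨⟨x.1, x.2.1⟩, x.2.2⟩)
  let D₂₁ : NN C.Q T₂₁.alg.car := D₀.map (fun x => ⟨⟨x.1, x.2.2⟩, x.2.1⟩)
  have e₁ : D₁₂.map T₁₂.val = D₁ := by
    apply NN.map_inj T₁.val_inj
    rw [h₁, ← hD₀]
    rfl
  have e₂ : D₂₁.map T₂₁.val = D₂ := by
    apply NN.map_inj T₂.val_inj
    rw [h₂, ← hD₀]
    rfl
  obtain ⟨x₁⟩ := D₁.nonempty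
  obtain ⟨x₂⟩ := D₂.nonempty
  obtain ⟨x₁₂⟩ := D₁₂.nonempty
  obtain ⟨x₂₁⟩ := D₂₁.nonempty
  have v₁ : C.V T₁.alg := C.hsub R hV T₁ ⟨T₁.val x₁, T₁.val_mem x₁⟩
  have v₂ : C.V T₂.alg := C.hsub R hV T₂ ⟨T₂.val x₂, T₂.val_mem x₂⟩
  have v₁₂ : C.V T₁₂.alg := C.hsub _ v₁ T₁₂ ⟨T₁₂.val x₁₂, T₁₂.val_mem x₁₂⟩
  have v₂₁ : C.V T₂₁.alg := C.hsub _ v₂ T₂₁ ⟨T₂₁.val x₂₁, T₂₁.val_mem x₂₁⟩
  have g₁ := subNat C v₁ D₁ (ih T₁.alg (T₁.card_lt hT₁) v₁ D₁) T₁₂ D₁₂ e₁
  have g₂ := subNat C v₂ D₂ (ih T₂.alg (T₂.card_lt hT₂) v₂ D₂) T₂₁ D₂₁ e₂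
  let φ : AIso T₁₂.alg T₂₁.alg :=
    ⟨⟨fun x => ⟨⟨x.1.1, x.2⟩, x.1.2⟩, fun x => ⟨⟨x.1.1, x.2⟩, x.1.2⟩, fun x => rfl, fun x => rfl⟩,
      fun s x => rfl⟩
  have g₃ := phi_iso' C φ v₁₂ v₂₁ D₁₂
  have g₄ : D₁₂.map φ.e = D₂₁ := rfl
  rw [g₁, g₂, ← g₄, g₃]
  rfl

/-- the image of a homomorphism -/
def imA {R R₂ : Alg S} (f : R.car → R₂.car)
    (hf : ∀ {n : ℕ} (s : S n) (x : Fin n → R.car), f (R.op s x) = R₂.op s (fun i => f (x i))) :
    SubA R₂ where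
  mem y := ∃ x, f x = y
  closed s x hx := by
    choose y hy using hx
    exact ⟨R.op s y, by rw [hf]; congr 1; funext i; exact hy i⟩

theorem hom_nat (C : Setup S) {R R₂ : Alg S} (hV : C.V R) (hV₂ : C.V R₂) (D : NN C.Q R.car)
    (h : Phi C.sy R D ∈ Z C.sy R D) (f : R.car → R₂.car)
    (hf : ∀ {n : ℕ} (s : S n) (x : Fin n → R.car), f (R.op s x) = R₂.op s (fun i => f (x i)))
    (h₂ : Phi C.sy R₂ (D.map f) ∈ Z C.sy R₂ (D.map f)) :
    Phi C.sy R₂ (D.map f) = f (Phi C.sy R D) := by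
  let T := imA f hf
  let f' : R.car → T.alg.car := fun x => ⟨f x, x, rfl⟩
  obtain ⟨x⟩ := D.nonempty
  have vT : C.V T.alg := C.hsub R₂ hV₂ T ⟨f x, x, rfl⟩
  have g₁ := surjNat C hV vT D h f' (fun s x => Subtype.ext (hf s x))
    (fun ⟨y, x, hx⟩ => ⟨x, Subtype.ext hx⟩)
  have g₂ := subNat C hV₂ (D.map f) h₂ T (D.map f') rfl
  rw [g₂, g₁]
  rfl

theorem Z_nonempty (C : Setup S) {R : Alg S} (hV : C.V R) (ih : MemBelow C (Nat.card R.car))
    (D : NN C.Q R.car) : (Z C.sy R D).Nonempty := by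
  by_cases hA : ∃ (T : SubA R) (_ : T.Proper) (D' : NN C.Q T.alg.car), D'.map T.val = D
  · obtain ⟨T, hT, D', hD'⟩ := hA
    refine ⟨T.val (Phi C.sy T.alg D'), ?_, ?_⟩
    · intro T₂ hT₂ D₂ hD₂
      exact two_sub C hV ih D T T₂ hT hT₂ D' D₂ hD' hD₂
    · intro α hα
      obtain ⟨x⟩ := D'.nonempty
      have vT : C.V T.alg := C.hsub R hV T ⟨T.val x, T.val_mem x⟩
      have vα : C.V α.alg := C.hquot R hV α
      have h1 := hom_nat C vT vα D' (ih _ (T.card_lt hT) vT D') (fun x => α.cls (T.val x))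
        (fun s x => α.cls_op s _) (ih _ (α.card_lt hα) vα _)
      have h2 : D'.map (fun x => α.cls (T.val x)) = D.map α.cls := by
        rw [← hD']
        rfl
      rw [h2] at h1
      exact h1.symm
  · have hg := C.good R hV
    haveI : Finite {α : Cgr R // α.Nontriv} := inferInstance
    haveI := Fintype.ofFinite {α : Cgr R // α.Nontriv}
    have hq : ∀ α : {α : Cgr R // α.Nontriv}, ∃ q : R.car,
        α.1.cls q = Phi C.sy α.1.alg (D.map α.1.cls) := fun α => α.1.cls_surj _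
    choose q hq using hq
    have hJ : ∀ (α : {α : Cgr R // α.Nontriv}) (J : Cgr R), (∀ x y, α.1.r x y → J.r x y) →
        J.cls (q α) = Phi C.sy J.alg (D.map J.cls) := by
      intro α J hαJ
      have vα : C.V α.1.alg := C.hquot R hV α.1
      let f : α.1.alg.car → J.alg.car := Quotient.lift J.cls
        (fun x y h => (J.cls_eq x y).2 (hαJ x y h))
      have hf0 : ∀ x, f (α.1.cls x) = J.cls x := fun x => rfl
      have h1 := surjNat C vα (C.hquot R hV J) (D.map α.1.cls)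
        (ih _ (α.1.card_lt α.2) vα _) f
        (by
          intro k s x
          choose y hy using fun i => α.1.cls_surj (x i)
          have e : x = fun i => α.1.cls (y i) := funext (fun i => (hy i).symm)
          rw [e, ← α.1.cls_op, hf0, J.cls_op]
          rfl)
        (by
          intro y
          obtain ⟨x, rfl⟩ := J.cls_surj y
          exact ⟨α.1.cls x, rfl⟩)
      have h2 : (D.map α.1.cls).map f = D.map J.cls := rfl
      rw [← h2, h1, ← hq α]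
      rfl
    obtain ⟨x, hx⟩ := crt hg (fun α : {α : Cgr R // α.Nontriv} => α.1) q (by
      intro α β
      let J := Cgr.join hg α.1 β.1
      have h1 := hJ α J (fun x y h => ⟨y, h, β.1.eqv.refl y⟩)
      have h2 := hJ β J (fun x y h => ⟨x, α.1.eqv.refl x, h⟩)
      exact (J.cls_eq _ _).1 (h1.trans h2.symm)) D.nonempty Finset.univ
    refine ⟨x, fun T hT D' hD' => absurd ⟨T, hT, D', hD'⟩ hA, fun α hα => ?_⟩
    have h1 := hx ⟨α, hα⟩ (Finset.mem_univ _)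
    exact ((α.cls_eq _ _).2 h1).trans (hq ⟨α, hα⟩)

theorem memBelow (C : Setup S) : ∀ n, MemBelow C n := by
  intro n
  induction n with
  | zero => exact fun R h => absurd h (by omega)
  | succ n ih =>
    intro R hR hV D
    refine phi_mem C hV D (Z_nonempty C hV (fun R' hR' => ih R' (by omega)) D)

theorem phi_mem' (C : Setup S) {R : Alg S} (hV : C.V R) (D : NN C.Q R.car) :
    Phi C.sy R D ∈ Z C.sy R D :=
  memBelow C (Nat.card R.car + 1) R (Nat.lt_succ_self _) hV D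

/-- `Φ` is natural. -/
theorem nat_hom (C : Setup S) {R R₂ : Alg S} (hV : C.V R) (hV₂ : C.V R₂) (D : NN C.Q R.car)
    (f : R.car → R₂.car)
    (hf : ∀ {n : ℕ} (s : S n) (x : Fin n → R.car), f (R.op s x) = R₂.op s (fun i => f (x i))) :
    Phi C.sy R₂ (D.map f) = f (Phi C.sy R D) :=
  hom_nat C hV hV₂ D (phi_mem' C hV D) f hf (phi_mem' C hV₂ _)

end Pool.Agent.H796R3
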