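import Pool.Agent.H796R3.Dist

/-!
# The minion `N` and the natural map `N(R) → R`
-/

set_option autoImplicit false

namespace Pool.Agent.H796R3

variable {S : ℕ → Type}

/-! ## isomorphisms -/

/-- identity -/
def AIso.refl (R : Alg S) : AIso R R := ⟨Equiv.refl _, fun _ _ => rfl⟩

/-- inverse -/
def AIso.symm {R T : Alg S} (φ : AIso R T) : AIso T R where
  e := φ.e.symm
  map s x := by
    apply φ.e.injective
    rw [φ.map]
    simp

/-- composition -/
def AIso.trans {R T U : Alg S} (φ : AIso R T) (ψ : AIso T U) : AIso R U where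
  e := φ.e.trans ψ.e
  map s x := by
    simp only [Equiv.trans_apply]
    rw [φ.map, ψ.map]

/-! ## the minion -/

variable {L : Type} (Q : L → Alg S)

/-- The elements of the minion `N` on the set `X`. -/
@[ext] structure NN (X : Type) where
  /-- components -/
  f : ∀ l, (X → (Q l).car) → (Q l).car
  /-- Boolean component -/
  b : (X → Fin 2) → Fin 2
  eqv : ∀ (l : L) (g : AIso (Q l) (Q l)) (ψ : X → (Q l).car),
    f l (fun x => g.e (ψ x)) = g.e (f l ψ)
  idem : ∀ c, b (fun _ => c) = c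

variable {Q}

/-- functoriality -/
def NN.map {X Y : Type} (D : NN Q X) (φ : X → Y) : NN Q Y where
  f l ψ := D.f l (fun x => ψ (φ x))
  b ψ := D.b (fun x => ψ (φ x))
  eqv l g ψ := D.eqv l g (fun x => ψ (φ x))
  idem c := D.idem c

theorem NN.map_map {X Y Z : Type} (D : NN Q X) (φ : X → Y) (χ : Y → Z) :
    (D.map φ).map χ = D.map (fun x => χ (φ x)) := rfl

theorem NN.nonempty {X : Type} (D : NN Q X) : Nonempty X := by
  by_contra h
  have h' : IsEmpty X := not_nonempty_iff.1 h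
  have h1 := D.idem 0
  have h2 := D.idem 1
  have e : (fun _ : X => (0 : Fin 2)) = (fun _ => 1) := funext (fun x => (h'.false x).elim)
  rw [e, h2] at h1
  exact absurd h1 (by decide)

theorem NN.map_inj {X Y : Type} {φ : X → Y} (hφ : Function.Injective φ) {D D' : NN Q X}
    (h : D.map φ = D'.map φ) : D = D' := by
  obtain ⟨x0⟩ := D.nonempty
  apply NN.ext
  · funext l ψ
    have e : (fun x => Function.extend φ ψ (fun _ => ψ x0) (φ x)) = ψ :=
      funext (fun x => hφ.extend_apply ψ _ x)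
    have h1 : (D.map φ).f l (Function.extend φ ψ (fun _ => ψ x0)) =
        (D'.map φ).f l (Function.extend φ ψ (fun _ => ψ x0)) := by rw [h]
    simp only [NN.map] at h1
    rwa [e] at h1
  · funext ψ
    have e : (fun x => Function.extend φ ψ (fun _ => ψ x0) (φ x)) = ψ :=
      funext (fun x => hφ.extend_apply ψ _ x)
    have h1 : (D.map φ).b (Function.extend φ ψ (fun _ => ψ x0)) =
        (D'.map φ).b (Function.extend φ ψ (fun _ => ψ x0)) := by rw [h]
    simp only [NN.map] at h1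
    rwa [e] at h1

/-- If `D` is supported on `T₁` and on `T₂`, it is supported on `T₁ ∩ T₂`. -/
theorem NN.inter {X : Type} (D : NN Q X) (T₁ T₂ : X → Prop)
    (D₁ : NN Q {x // T₁ x}) (D₂ : NN Q {x // T₂ x}) (h₁ : D₁.map Subtype.val = D)
    (h₂ : D₂.map Subtype.val = D) :
    ∃ D₀ : NN Q {x // T₁ x ∧ T₂ x}, D₀.map Subtype.val = D := by
  classical
  have f1 : ∀ l (ψ ψ' : X → (Q l).car), (∀ x, T₁ x → ψ x = ψ' x) → D.f l ψ = D.f l ψ' := by
    intro l ψ ψ' h
    rw [← h₁]
    show D₁.f l _ = D₁.f l _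
    congr 1
    funext x
    exact h x.1 x.2
  have f2 : ∀ l (ψ ψ' : X → (Q l).car), (∀ x, T₂ x → ψ x = ψ' x) → D.f l ψ = D.f l ψ' := by
    intro l ψ ψ' h
    rw [← h₂]
    show D₂.f l _ = D₂.f l _
    congr 1
    funext x
    exact h x.1 x.2
  have b1 : ∀ (ψ ψ' : X → Fin 2), (∀ x, T₁ x → ψ x = ψ' x) → D.b ψ = D.b ψ' := by
    intro ψ ψ' h
    rw [← h₁]
    show D₁.b _ = D₁.b _
    congr 1
    funext x
    exact h x.1 x.2
  have b2 : ∀ (ψ ψ' : X → Fin 2), (∀ x, T₂ x → ψ x = ψ' x) → D.b ψ = D.b ψ' := by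
    intro ψ ψ' h
    rw [← h₂]
    show D₂.b _ = D₂.b _
    congr 1
    funext x
    exact h x.1 x.2
  obtain ⟨t, ht1, ht2⟩ : ∃ t, T₁ t ∧ T₂ t := by
    by_contra hcon
    have e1 : D.b (fun x => if T₁ x then 0 else 1) = D.b (fun _ => 0) :=
      b1 _ _ (fun x hx => by simp [hx])
    have e2 : D.b (fun x => if T₁ x then 0 else 1) = D.b (fun _ => 1) := by
      refine b2 _ _ (fun x hx => ?_)
      have : ¬ T₁ x := fun h => hcon ⟨x, h, hx⟩
      simp [this]
    rw [e1, D.idem, D.idem] at e2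
    exact absurd e2 (by decide)
  let F : ∀ {Y : Type}, ({x // T₁ x ∧ T₂ x} → Y) → X → Y :=
    fun ψ x => if h : T₁ x ∧ T₂ x then ψ ⟨x, h⟩ else ψ ⟨t, ht1, ht2⟩
  have hF : ∀ {Y : Type} (ψ : X → Y) (x : X), T₁ x → T₂ x →
      F (fun z : {x // T₁ x ∧ T₂ x} => ψ z.1) x = ψ x := by
    intro Y ψ x h1 h2
    simp only [F]
    rw [dif_pos ⟨h1, h2⟩]
  refine ⟨⟨fun l ψ => D.f l (F ψ), fun ψ => D.b (F ψ), ?_, ?_⟩, ?_⟩
  · intro l g ψ
    rw [← D.eqv]
    congr 1
    funext x
    simp only [F]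
    split_ifs <;> rfl
  · intro c
    have : F (fun _ : {x // T₁ x ∧ T₂ x} => c) = fun _ => c := by
      funext x
      simp only [F]
      split_ifs <;> rfl
    rw [this]
    exact D.idem c
  · apply NN.ext
    · funext l ψ
      show D.f l (F (fun z : {x // T₁ x ∧ T₂ x} => ψ z.1)) = D.f l ψ
      have e1 : D.f l (fun x => if T₁ x then ψ x else F (fun z : {x // T₁ x ∧ T₂ x} => ψ z.1) x) =
          D.f l ψ := f1 _ _ _ (fun x hx => by simp [hx])
      rw [← e1]
      refine f2 _ _ _ (fun x hx => ?_)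
      by_cases h1 : T₁ x
      · rw [hF ψ x h1 hx, if_pos h1]
      · rw [if_neg h1]
    · funext ψ
      show D.b (F (fun z : {x // T₁ x ∧ T₂ x} => ψ z.1)) = D.b ψ
      have e1 : D.b (fun x => if T₁ x then ψ x else F (fun z : {x // T₁ x ∧ T₂ x} => ψ z.1) x) =
          D.b ψ := b1 _ _ (fun x hx => by simp [hx])
      rw [← e1]
      refine b2 _ _ (fun x hx => ?_)
      by_cases h1 : T₁ x
      · rw [hF ψ x h1 hx, if_pos h1]
      · rw [if_neg h1]

/-! ## the guard and the symmetric choice -/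

theorem choose_congr {L : Type} (P P' : L → Prop) (h : ∃ l, P l) (h' : ∃ l, P' l) (e : P = P') :
    Classical.choose h = Classical.choose h' := by
  subst e
  rfl

/-- The guard. -/
noncomputable def guard (R : Alg S) (D : NN Q R.car) : R.car := by
  classical
  exact if h : ∃ l, Nonempty (AIso R (Q l)) then
    (Classical.choice (Classical.choose_spec h)).e.symm
      (D.f (Classical.choose h) (Classical.choice (Classical.choose_spec h)).e)
  else Classical.choice D.nonempty

theorem guard_eq (R : Alg S) (D : NN Q R.car) (h : ∃ l, Nonempty (AIso R (Q l))) (l : L)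
    (hl : l = Classical.choose h) (ι : AIso R (Q l)) : guard R D = ι.e.symm (D.f l ι.e) := by
  subst hl
  unfold guard
  rw [dif_pos h]
  generalize Classical.choice (Classical.choose_spec h) = κ
  generalize Classical.choose h = l at ι κ
  have e := D.eqv l (ι.symm.trans κ) ι.e
  have e' : (fun x => (ι.symm.trans κ).e (ι.e x)) = κ.e := by
    funext x
    show κ.e (ι.e.symm (ι.e x)) = κ.e x
    rw [Equiv.symm_apply_apply]
  rw [e'] at e
  rw [e]
  show κ.e.symm (κ.e (ι.e.symm _)) = _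
  rw [Equiv.symm_apply_apply]

theorem guard_iso {R R' : Alg S} (φ : AIso R R') (h : ∃ l, Nonempty (AIso R (Q l)))
    (D : NN Q R.car) : guard R' (D.map φ.e) = φ.e (guard R D) := by
  have hP : (fun l => Nonempty (AIso R (Q l))) = (fun l => Nonempty (AIso R' (Q l))) := by
    funext l
    exact propext ⟨fun ⟨ι⟩ => ⟨φ.symm.trans ι⟩, fun ⟨ι⟩ => ⟨φ.trans ι⟩⟩
  have h' : ∃ l, Nonempty (AIso R' (Q l)) := by
    obtain ⟨l, ⟨ι⟩⟩ := h
    exact ⟨l, ⟨φ.symm.trans ι⟩⟩
  have hl := choose_congr _ _ h h' hP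
  obtain ⟨ι⟩ := Classical.choose_spec h
  rw [guard_eq R D h _ rfl ι, guard_eq R' (D.map φ.e) h' _ hl (φ.symm.trans ι)]
  show φ.e (ι.e.symm (D.f _ (fun x => ι.e (φ.e.symm (φ.e x))))) = _
  simp only [Equiv.symm_apply_apply]

/-- The symmetric choice of an element close to `Z`. -/
noncomputable def sym (sy : ∀ n, S (n + 1)) (R : Alg S) (u : R.car) (Z : Set R.car) : R.car :=
  R.op (sy (Nat.card Z)) (Fin.cons u (fun i => ((Finite.equivFin Z).symm i : R.car)))

variable {m : S 3} {sy : ∀ n, S (n + 1)}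

theorem sym_eq {R : Alg S} (hg : Good m sy R) (u : R.car) (Z : Set R.car) (n : ℕ)
    (e : Fin n ≃ Z) : sym sy R u Z = R.op (sy n) (Fin.cons u (fun i => (e i : R.car))) := by
  have hc : Nat.card Z = n := by
    rw [← Nat.card_congr e]
    simp
  unfold sym
  generalize Finite.equivFin Z = e'
  generalize Nat.card Z = k at *
  subst hc
  have h1 : R.op (sy k) (Fin.cons u ((fun i => (e'.symm i : R.car)) ∘ (e.trans e'))) =
      R.op (sy k) (Fin.cons u (fun i => (e'.symm i : R.car))) := by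
    rcases Nat.eq_zero_or_pos k with h0 | h0
    · subst h0
      congr 2
      funext i
      exact i.elim0
    · exact hg.s1 k (e.trans e') u (fun i => (e'.symm i : R.car)) h0
  rw [← h1]
  congr 2
  funext i
  simp

theorem sym_iso {R R' : Alg S} (hg' : Good m sy R') (φ : AIso R R') (u : R.car) (Z : Set R.car) :
    sym sy R' (φ.e u) (φ.e '' Z) = φ.e (sym sy R u Z) := by
  rw [sym_eq hg' (φ.e u) (φ.e '' Z) (Nat.card Z)
    ((Finite.equivFin Z).symm.trans (Equiv.image φ.e Z))]
  unfold sym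
  rw [φ.map]
  congr 1
  funext i
  refine Fin.cases ?_ (fun j => ?_) i
  · rfl
  · rfl

theorem sym_near {R : Alg S} (hg : Good m sy R) (u q : R.car) (Z : Set R.car) (hq : q ∈ Z)
    (α : Cgr R) (h : ∀ z ∈ Z, α.r z q) : α.r (sym sy R u Z) q := by
  have hn : 1 ≤ Nat.card Z := by
    haveI : Nonempty Z := ⟨⟨q, hq⟩⟩
    exact Nat.card_pos
  have h1 : α.r (sym sy R u Z) (R.op (sy (Nat.card Z)) (Fin.cons u (fun _ => q))) := by
    refine α.comp _ _ _ (fun i => ?_)
    refine Fin.cases ?_ (fun j => ?_) i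
    · exact α.eqv.refl _
    · exact h _ (Subtype.mem _)
  rwa [hg.s2 _ u q hn] at h1

theorem sym_single {R : Alg S} (hg : Good m sy R) (u q : R.car) (Z : Set R.car) (hq : q ∈ Z)
    (h : ∀ z ∈ Z, z = q) : sym sy R u Z = q :=
  sym_near hg u q Z hq ⟨fun x y => x = y, ⟨fun _ => rfl, fun h => h.symm, fun h g => h.trans g⟩,
    fun s x y h => by rw [funext h]⟩ h

end Pool.Agent.H796R3
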