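import Pool.Agent.H796R3.Minion

/-!
# The natural map `Φ_R : N(R) → R`
-/

set_option autoImplicit false

namespace Pool.Agent.H796R3

variable {S : ℕ → Type}

/-- A class of finite algebras closed under nonempty subalgebras and quotients, with
representatives `Q l`. -/
structure Setup (S : ℕ → Type) where
  m : S 3
  sy : ∀ n, S (n + 1)
  L : Type
  Q : L → Alg S
  V : Alg S → Prop
  good : ∀ R, V R → Good m sy R
  hsub : ∀ R, V R → ∀ T : SubA R, (∃ x, T.mem x) → V T.alg
  hquot : ∀ R, V R → ∀ α : Cgr R, V α.alg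
  rep : ∀ R, V R → ∃ l, Nonempty (AIso R (Q l))

/-- proper subalgebra -/
def SubA.Proper {R : Alg S} (T : SubA R) : Prop := ∃ x, ¬ T.mem x

/-- nontrivial congruence -/
def Cgr.Nontriv {R : Alg S} (α : Cgr R) : Prop := ∃ x y, x ≠ y ∧ α.r x y

/-- inclusion -/
def SubA.val {R : Alg S} (T : SubA R) (x : T.alg.car) : R.car := Subtype.val x

theorem SubA.val_inj {R : Alg S} (T : SubA R) : Function.Injective T.val :=
  fun _ _ h => Subtype.ext h

theorem SubA.val_mem {R : Alg S} (T : SubA R) (x : T.alg.car) : T.mem (T.val x) := x.2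

theorem SubA.card_lt {R : Alg S} (T : SubA R) (h : T.Proper) :
    Nat.card T.alg.car < Nat.card R.car := by
  obtain ⟨x, hx⟩ := h
  exact Finite.card_subtype_lt hx

theorem Cgr.card_lt {R : Alg S} (α : Cgr R) (h : α.Nontriv) :
    Nat.card α.alg.car < Nat.card R.car := by
  obtain ⟨x, y, hne, hr⟩ := h
  haveI := Fintype.ofFinite R.car
  haveI := Fintype.ofFinite α.alg.car
  rw [Nat.card_eq_fintype_card, Nat.card_eq_fintype_card]
  refine Fintype.card_lt_of_surjective_not_injective α.cls α.cls_surj (fun hi => hne ?_)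
  exact hi ((α.cls_eq x y).2 hr)

section
variable {L : Type} {Q : L → Alg S}

/-- the candidates for `Φ_R(D)` -/
def ZF (R : Alg S)
    (ih : ∀ R' : Alg S, Nat.card R'.car < Nat.card R.car → NN Q R'.car → R'.car)
    (D : NN Q R.car) : Set R.car :=
  {q | (∀ (T : SubA R) (hT : T.Proper) (D' : NN Q T.alg.car), D'.map T.val = D →
      q = T.val (ih T.alg (T.card_lt hT) D')) ∧
    ∀ (α : Cgr R) (hα : α.Nontriv), α.cls q = ih α.alg (α.card_lt hα) (D.map α.cls)}

/-- the map `Φ` -/
noncomputable def Phi (sy : ∀ n, S (n + 1)) : ∀ R : Alg S, NN Q R.car → R.car :=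
  WellFounded.fix (measure (fun R : Alg S => Nat.card R.car)).wf
    (fun R ih D => sym sy R (guard R D) (ZF R ih D))

/-- the candidates for `Φ_R(D)` -/
def Z (sy : ∀ n, S (n + 1)) (R : Alg S) (D : NN Q R.car) : Set R.car :=
  ZF R (fun R' _ => Phi sy R') D

theorem Phi_eq (sy : ∀ n, S (n + 1)) (R : Alg S) (D : NN Q R.car) :
    Phi sy R D = sym sy R (guard R D) (Z sy R D) := by
  unfold Phi
  rw [WellFounded.fix_eq]
  rfl

end

/-! ## isomorphisms from kernels -/

/-- quotient by the kernel of a surjective homomorphism -/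
theorem quotIso {R R₂ : Alg S} (α : Cgr R) (f : R.car → R₂.car)
    (hf : ∀ {n : ℕ} (s : S n) (x : Fin n → R.car), f (R.op s x) = R₂.op s (fun i => f (x i)))
    (hs : Function.Surjective f) (hk : ∀ x y, α.r x y ↔ f x = f y) :
    ∃ ι : AIso α.alg R₂, ∀ x, ι.e (α.cls x) = f x := by
  let g : α.alg.car → R₂.car := Quotient.lift f (fun x y h => (hk x y).1 h)
  have hg : ∀ x, g (α.cls x) = f x := fun x => rfl
  have hb : Function.Bijective g := by
    constructor
    · intro a b h
      obtain ⟨x, rfl⟩ := α.cls_surj a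
      obtain ⟨y, rfl⟩ := α.cls_surj b
      rw [hg, hg] at h
      exact (α.cls_eq x y).2 ((hk x y).2 h)
    · intro y
      obtain ⟨x, rfl⟩ := hs y
      exact ⟨α.cls x, hg x⟩
  refine ⟨⟨Equiv.ofBijective g hb, ?_⟩, fun x => rfl⟩
  intro n s x
  choose y hy using fun i => α.cls_surj (x i)
  have e : x = fun i => α.cls (y i) := funext (fun i => (hy i).symm)
  rw [e, ← α.cls_op]
  show g (α.cls _) = R₂.op s (fun i => g (α.cls (y i)))
  rw [hg, hf]
  rfl

/-! ## naturality for isomorphisms -/

theorem phi_iso (C : Setup S) : ∀ (n : ℕ) (R R' : Alg S) (φ : AIso R R'),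
    Nat.card R.car = n → C.V R → C.V R' → ∀ D : NN C.Q R.car,
    Phi C.sy R' (D.map φ.e) = φ.e (Phi C.sy R D) := by
  intro n
  induction n using Nat.strong_induction_on with
  | _ n ih =>
  have key : ∀ (R R' : Alg S) (φ : AIso R R'), Nat.card R.car = n → C.V R → C.V R' →
      ∀ (D : NN C.Q R.car) (q : R.car), q ∈ Z C.sy R D → φ.e q ∈ Z C.sy R' (D.map φ.e) := by
    intro R R' φ hn hV hV' D q hq
    constructor
    · intro T' hT' D'' hD''
      let T : SubA R := ⟨fun x => T'.mem (φ.e x), by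
        intro k s x hx
        rw [φ.map]
        exact T'.closed s _ hx⟩
      let φT : AIso T.alg T'.alg :=
        ⟨Equiv.subtypeEquiv φ.e (fun x => Iff.rfl), by
          intro k s x
          exact Subtype.ext (φ.map s _)⟩
      have hval : ∀ x, φ.e (T.val x) = T'.val (φT.e x) := fun x => rfl
      have hT : T.Proper := by
        obtain ⟨y, hy⟩ := hT'
        exact ⟨φ.e.symm y, by
          show ¬ T'.mem (φ.e (φ.e.symm y))
          rwa [Equiv.apply_symm_apply]⟩
      have hD' : (D''.map φT.e.symm).map T.val = D := by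
        apply NN.map_inj φ.e.injective
        rw [← hD'', NN.map_map, NN.map_map]
        congr 1
        funext y
        rw [hval, Equiv.apply_symm_apply]
      have h1 := hq.1 T hT (D''.map φT.e.symm) hD'
      have hVT : C.V T.alg := by
        obtain ⟨x⟩ := (D''.map φT.e.symm).nonempty
        exact C.hsub R hV T ⟨T.val x, T.val_mem x⟩
      have hVT' : C.V T'.alg := by
        obtain ⟨x⟩ := D''.nonempty
        exact C.hsub R' hV' T' ⟨T'.val x, T'.val_mem x⟩
      have h2 := ih (Nat.card T.alg.car) (hn ▸ T.card_lt hT) T.alg T'.alg φT rfl hVT hVT'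
        (D''.map φT.e.symm)
      have h3 : (D''.map φT.e.symm).map φT.e = D'' := by
        rw [NN.map_map]
        have : (fun x => φT.e (φT.e.symm x)) = id := by
          funext x
          simp
        rw [this]
        rfl
      rw [h3] at h2
      show φ.e q = T'.val (Phi C.sy T'.alg D'')
      rw [h1, h2]
      rfl
    · intro α' hα'
      let α : Cgr R := ⟨fun x y => α'.r (φ.e x) (φ.e y),
        ⟨fun x => α'.eqv.refl _, fun h => α'.eqv.symm h, fun h g => α'.eqv.trans h g⟩, by
        intro k s x y h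
        show α'.r (φ.e _) (φ.e _)
        rw [φ.map, φ.map]
        exact α'.comp s _ _ h⟩
      obtain ⟨φα, hφα⟩ := quotIso α (fun x => α'.cls (φ.e x))
        (by
          intro k s x
          rw [φ.map, α'.cls_op])
        (by
          intro y
          obtain ⟨x, rfl⟩ := α'.cls_surj y
          exact ⟨φ.e.symm x, by simp⟩)
        (fun x y => (α'.cls_eq _ _).symm)
      have hα : α.Nontriv := by
        obtain ⟨x, y, hne, hr⟩ := hα'
        refine ⟨φ.e.symm x, φ.e.symm y, fun h => hne (φ.e.symm.injective h), ?_⟩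
        show α'.r (φ.e (φ.e.symm x)) (φ.e (φ.e.symm y))
        simpa using hr
      have h1 := hq.2 α hα
      have h2 := ih (Nat.card α.alg.car) (hn ▸ α.card_lt hα) α.alg α'.alg φα rfl
        (C.hquot R hV α) (C.hquot R' hV' α') (D.map α.cls)
      have h3 : (D.map α.cls).map φα.e = (D.map φ.e).map α'.cls := by
        rw [NN.map_map, NN.map_map]
        congr 1
        funext x
        exact hφα x
      rw [h3] at h2
      show α'.cls (φ.e q) = Phi C.sy α'.alg ((D.map φ.e).map α'.cls)
      rw [h2, ← hφα q, h1]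
  intro R R' φ hn hV hV' D
  have hn' : Nat.card R'.car = n := by rw [← hn, Nat.card_congr φ.e]
  have hback : (D.map φ.e).map φ.symm.e = D := by
    rw [NN.map_map]
    have : (fun x => φ.symm.e (φ.e x)) = id := by
      funext x
      show φ.e.symm (φ.e x) = x
      simp
    rw [this]
    rfl
  have hZ : Z C.sy R' (D.map φ.e) = φ.e '' (Z C.sy R D) := by
    ext q
    constructor
    · intro hq
      have := key R' R φ.symm hn' hV' hV _ _ hq
      rw [hback] at this
      exact ⟨φ.e.symm q, this, by simp⟩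
    · rintro ⟨q, hq, rfl⟩
      exact key R R' φ hn hV hV' D q hq
  rw [Phi_eq, Phi_eq, hZ, guard_iso φ (C.rep R hV), sym_iso (C.good R' hV')]

theorem phi_iso' (C : Setup S) {R R' : Alg S} (φ : AIso R R') (hV : C.V R) (hV' : C.V R')
    (D : NN C.Q R.car) : Phi C.sy R' (D.map φ.e) = φ.e (Phi C.sy R D) :=
  phi_iso C _ R R' φ rfl hV hV' D

theorem phi_mem (C : Setup S) {R : Alg S} (hV : C.V R) (D : NN C.Q R.car)
    (h : (Z C.sy R D).Nonempty) : Phi C.sy R D ∈ Z C.sy R D := by
  obtain ⟨q, hq⟩ := h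
  rw [Phi_eq]
  have hg := C.good R hV
  constructor
  · intro T hT D' hD'
    have h1 := hq.1 T hT D' hD'
    rw [← h1]
    refine sym_single hg _ q _ hq (fun z hz => ?_)
    rw [hz.1 T hT D' hD', ← h1]
  · intro α hα
    have h1 := hq.2 α hα
    rw [← h1, α.cls_eq]
    refine sym_near hg _ q _ hq α (fun z hz => ?_)
    rw [← α.cls_eq, hz.2 α hα, ← h1]

theorem subNat (C : Setup S) {R : Alg S} (hV : C.V R) (D : NN C.Q R.car)
    (h : Phi C.sy R D ∈ Z C.sy R D) (T : SubA R) (D' : NN C.Q T.alg.car)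
    (hD' : D'.map T.val = D) : Phi C.sy R D = T.val (Phi C.sy T.alg D') := by
  by_cases hT : T.Proper
  · exact h.1 T hT D' hD'
  · have hT' : ∀ x, T.mem x := by
      intro x
      by_contra hx
      exact hT ⟨x, hx⟩
    let φ : AIso T.alg R := ⟨Equiv.ofBijective T.val ⟨T.val_inj, fun x => ⟨⟨x, hT' x⟩, rfl⟩⟩,
      fun s x => rfl⟩
    obtain ⟨x⟩ := D'.nonempty
    have := phi_iso' C φ (C.hsub R hV T ⟨T.val x, T.val_mem x⟩) hV D'
    have e : D'.map φ.e = D := hD'
    rw [e] at this
    exact this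

theorem quotNat (C : Setup S) {R : Alg S} (hV : C.V R) (D : NN C.Q R.car)
    (h : Phi C.sy R D ∈ Z C.sy R D) (α : Cgr R) :
    α.cls (Phi C.sy R D) = Phi C.sy α.alg (D.map α.cls) := by
  by_cases hα : α.Nontriv
  · exact h.2 α hα
  · have hα' : ∀ x y, α.r x y → x = y := by
      intro x y hr
      by_contra hne
      exact hα ⟨x, y, hne, hr⟩
    let φ : AIso R α.alg := ⟨Equiv.ofBijective α.cls
      ⟨fun x y h => hα' x y ((α.cls_eq x y).1 h), α.cls_surj⟩, fun s x => α.cls_op s x⟩
    exact (phi_iso' C φ hV (C.hquot R hV α) D).symm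

/-- the kernel congruence -/
def kerC {R R₂ : Alg S} (f : R.car → R₂.car)
    (hf : ∀ {n : ℕ} (s : S n) (x : Fin n → R.car), f (R.op s x) = R₂.op s (fun i => f (x i))) :
    Cgr R where
  r x y := f x = f y
  eqv := ⟨fun _ => rfl, fun h => h.symm, fun h g => h.trans g⟩
  comp s x y h := by
    rw [hf, hf]
    congr 1
    funext i
    exact h i

theorem surjNat (C : Setup S) {R R₂ : Alg S} (hV : C.V R) (hV₂ : C.V R₂) (D : NN C.Q R.car)
    (h : Phi C.sy R D ∈ Z C.sy R D) (f : R.car → R₂.car)
    (hf : ∀ {n : ℕ} (s : S n) (x : Fin n → R.car), f (R.op s x) = R₂.op s (fun i => f (x i)))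
    (hs : Function.Surjective f) : Phi C.sy R₂ (D.map f) = f (Phi C.sy R D) := by
  obtain ⟨ι, hι⟩ := quotIso (kerC f hf) f hf hs (fun x y => Iff.rfl)
  have h1 := quotNat C hV D h (kerC f hf)
  have h2 := phi_iso' C ι (C.hquot R hV _) hV₂ (D.map (kerC f hf).cls)
  have h3 : (D.map (kerC f hf).cls).map ι.e = D.map f := by
    rw [NN.map_map]
    congr 1
    funext x
    exact hι x
  rw [h3] at h2
  rw [h2, ← h1, hι]

end Pool.Agent.H796R3
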